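import Pool.Agent.Lib.Tate.T2.Ring

/-! C42, block T2: interface of the localised stable ring `StR E`.

For a loop `f : S^{(A × 3) + C} → (E ∧ CP^∞_+) (A + C)` the class `StR.c f : StR E`. -/

set_option linter.unusedSectionVars false

open Set Topology
open scoped unitInterval Topology.Homotopy

noncomputable section

namespace Pool.Agent.Tate.T2

variable {E : CSRS}
variable {A B C D A' B' C' D' A'' C'' : Type} [Fintype A] [DecidableEq A] [Fintype B] [DecidableEq B]
  [Fintype C] [DecidableEq C] [Fintype D] [DecidableEq D] [Fintype A'] [DecidableEq A']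
  [Fintype B'] [DecidableEq B'] [Fintype C'] [DecidableEq C'] [Fintype D'] [DecidableEq D']
  [Fintype A''] [DecidableEq A''] [Fintype C''] [DecidableEq C'']

theorem st_mul' [Nonempty ((A × Fin 3) ⊕ C)] [Nonempty ((A' × Fin 3) ⊕ C')] (a : A ⊕ B ≃ A')
    (c : C ⊕ D ≃ C') (x y : G E A C) : st a c (x * y) = st a c x * st a c y := by
  have h1 : Nonempty (((A × Fin 3) ⊕ C) ⊕ ((B × Fin 3) ⊕ D)) := inferInstance
  have h2 : Nonempty (((A ⊕ B) × Fin 3) ⊕ (C ⊕ D)) := (shC A C B D).symm.nonempty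
  unfold st gmul grho
  rw [hmul_mul_left, rho_mul, rho_mul]

/-- Additivity of the class. -/
theorem cl_mul' [Nonempty ((A × Fin 3) ⊕ C)] (x y : G E A C) : cl (x * y) = cl x + cl y := by
  unfold cl stn
  rw [st_mul', ofMul_mul, map_add]

theorem cl_one [Nonempty ((A × Fin 3) ⊕ C)] : cl (1 : G E A C) = 0 := by
  have h := cl_mul' (1 : G E A C) 1
  rw [mul_one] at h
  exact left_eq_add.1 h

theorem cl_inv [Nonempty ((A × Fin 3) ⊕ C)] (x : G E A C) : cl x⁻¹ = -cl x := by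
  rw [eq_neg_iff_add_eq_zero, ← cl_mul', inv_mul_cancel, cl_one]

theorem cl_zpow [Nonempty ((A × Fin 3) ⊕ C)] (x : G E A C) (n : ℤˣ) :
    cl (x ^ (n : ℤ)) = (n : ℤ) • cl x := by
  rcases Int.units_eq_one_or n with h | h
  · rw [h]; simp
  · rw [h]
    simp only [Units.val_neg, Units.val_one, Int.reduceNeg, zpow_neg, zpow_one, neg_smul, one_smul]
    exact cl_inv x

/-- Arbitrary permutations of the coordinates and of the levels act by the product of the signs. -/
theorem cl_rho_perm (h : SS E) [Nonempty ((A × Fin 3) ⊕ C)]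
    (e : Equiv.Perm ((A × Fin 3) ⊕ C)) (a : Equiv.Perm (A ⊕ C)) (x : G E A C) :
    cl (rho e a x : G E A C) = ((Equiv.Perm.sign e * Equiv.Perm.sign a : ℤˣ) : ℤ) • cl x := by
  by_cases ha : Equiv.Perm.sign a = 1
  · have h1 : (rho e a x : G E A C) = x ^ (Equiv.Perm.sign e : ℤ) := by
      induction x using cls_ind with | _ f
      have h1 : rho e a (cls f) = relabH e (cls (CSRS.push a f)) := rfl
      rw [h1, cls_eq.2 (h.cp.push_homotopic a ha f), relabH_perm]
    rw [h1, cl_zpow, ha, mul_one]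
  · have ha' : Equiv.Perm.sign a = -1 := by
      rcases Int.units_eq_one_or (Equiv.Perm.sign a) with h | h
      · exact absurd h ha
      · exact h
    rw [← cl_gmul_U (B := Empty) (D := Fin 2) h, ← cl_gmul_U (B := Empty) (D := Fin 2) h x]
    have h2 : (hmul (rho e a x) (U E Empty (Fin 2)) : E.cp.P _ _) =
        rho (Equiv.sumCongr e (Equiv.sumCongr (trip (Equiv.refl Empty)) (Equiv.swap 0 1)))
          (Equiv.sumCongr a (Equiv.sumCongr (Equiv.refl Empty) (Equiv.swap 0 1)))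
          (hmul x (U E Empty (Fin 2))) := by
      rw [← hmul_rho]
      congr 1
      exact (grho_U (E := E) (Equiv.refl Empty) (Equiv.swap (0 : Fin 2) 1)).symm
    have hn : Nonempty (((A × Fin 3) ⊕ C) ⊕ ((Empty × Fin 3) ⊕ Fin 2)) := inferInstance
    have hn2 : Nonempty (((A ⊕ Empty) × Fin 3) ⊕ (C ⊕ Fin 2)) := inferInstance
    set e' : Equiv.Perm (((A × Fin 3) ⊕ C) ⊕ ((Empty × Fin 3) ⊕ Fin 2)) :=
      Equiv.sumCongr e (Equiv.sumCongr (trip (Equiv.refl Empty)) (Equiv.swap 0 1)) with he'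
    set a' : Equiv.Perm ((A ⊕ C) ⊕ (Empty ⊕ Fin 2)) :=
      Equiv.sumCongr a (Equiv.sumCongr (Equiv.refl Empty) (Equiv.swap 0 1)) with ha1
    have s1 : Equiv.Perm.sign (Equiv.swap (0 : Fin 2) 1) = -1 := Equiv.Perm.sign_swap (by decide)
    have s2 : Equiv.Perm.sign e' = -Equiv.Perm.sign e := by
      have r1 := Equiv.Perm.sign_sumCongr e ((Equiv.Perm.sumCongr
        (trip (Equiv.refl Empty) : Equiv.Perm (Empty × Fin 3)) (Equiv.swap (0 : Fin 2) 1)))
      have r2 := Equiv.Perm.sign_sumCongr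
        (trip (Equiv.refl Empty) : Equiv.Perm (Empty × Fin 3)) (Equiv.swap (0 : Fin 2) 1)
      have r3 : Equiv.Perm.sign (trip (Equiv.refl Empty) : Equiv.Perm (Empty × Fin 3)) = 1 := by
        have : (trip (Equiv.refl Empty) : Equiv.Perm (Empty × Fin 3)) = 1 := Subsingleton.elim _ _
        rw [this]; exact Equiv.Perm.sign_one
      rw [r2, r3, s1] at r1
      refine Eq.trans r1 ?_
      simp
    have s3 : Equiv.Perm.sign a' = 1 := by
      have r1 := Equiv.Perm.sign_sumCongr a ((Equiv.Perm.sumCongr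
        (Equiv.refl Empty : Equiv.Perm Empty) (Equiv.swap (0 : Fin 2) 1)))
      have r2 := Equiv.Perm.sign_sumCongr
        (Equiv.refl Empty : Equiv.Perm Empty) (Equiv.swap (0 : Fin 2) 1)
      have r3 : Equiv.Perm.sign (Equiv.refl Empty : Equiv.Perm Empty) = 1 := Equiv.Perm.sign_refl
      rw [r2, r3, s1, ha'] at r1
      refine Eq.trans r1 ?_
      simp
    have h3 : (rho e' a' (hmul x (U E Empty (Fin 2))) : E.cp.P _ _) =
        (hmul x (U E Empty (Fin 2))) ^ (-Equiv.Perm.sign e : ℤˣ).val := by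
      have key : ∀ y : E.cp.P (((A × Fin 3) ⊕ C) ⊕ ((Empty × Fin 3) ⊕ Fin 2))
          ((A ⊕ C) ⊕ (Empty ⊕ Fin 2)), rho e' a' y = y ^ (Equiv.Perm.sign e' : ℤ) := by
        intro y
        induction y using cls_ind with | _ f
        have h1 : rho e' a' (cls f) = relabH e' (cls (CSRS.push a' f)) := rfl
        rw [h1, cls_eq.2 (h.cp.push_homotopic a' s3 f), relabH_perm]
      rw [key, s2]
    have h4 : (gmul (rho e a x) (U E Empty (Fin 2)) : G E _ _) =
        (gmul x (U E Empty (Fin 2))) ^ ((-Equiv.Perm.sign e : ℤˣ) : ℤ) := by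
      unfold gmul
      rw [h2, h3]
      have hh : ∀ (y : E.cp.P (((A × Fin 3) ⊕ C) ⊕ ((Empty × Fin 3) ⊕ Fin 2))
          ((A ⊕ C) ⊕ (Empty ⊕ Fin 2))) (n : ℤ), rho (shC A C Empty (Fin 2)) (shL A C Empty (Fin 2))
          (y ^ n) = (rho (shC A C Empty (Fin 2)) (shL A C Empty (Fin 2)) y) ^ n := by
        intro y n
        exact map_zpow (MonoidHom.mk' (rho (shC A C Empty (Fin 2)) (shL A C Empty (Fin 2)))
          (fun a b => rho_mul _ _ a b)) y n
      rw [hh]
    rw [h4, cl_zpow, ha']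
    congr 2
    simp

/-! ### Classes of loops -/

/-- The class in `StR E` of a loop. -/
def StR.c (f : E.cp.L ((A × Fin 3) ⊕ C) (A ⊕ C)) : StR E := cl (cls f)

theorem StR.c_homotopic {f g : E.cp.L ((A × Fin 3) ⊕ C) (A ⊕ C)} (h : GenLoop.Homotopic f g) :
    StR.c f = StR.c g := by
  unfold StR.c
  rw [cls_eq.2 h]

/-- Additivity: concatenation along any coordinate. -/
theorem StR.c_transAt (i : (A × Fin 3) ⊕ C) (f g : E.cp.L ((A × Fin 3) ⊕ C) (A ⊕ C)) :
    StR.c (GenLoop.transAt i f g) = StR.c f + StR.c g := by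
  have : Nonempty ((A × Fin 3) ⊕ C) := ⟨i⟩
  unfold StR.c
  rw [← cls_mul i g f, cl_mul', add_comm]

theorem StR.c_const [Nonempty ((A × Fin 3) ⊕ C)] :
    StR.c (GenLoop.const : E.cp.L ((A × Fin 3) ⊕ C) (A ⊕ C)) = 0 := by
  exact cl_one

theorem StR.c_symmAt (i : (A × Fin 3) ⊕ C) (f : E.cp.L ((A × Fin 3) ⊕ C) (A ⊕ C)) :
    StR.c (GenLoop.symmAt i f) = -StR.c f := by
  have : Nonempty ((A × Fin 3) ⊕ C) := ⟨i⟩
  unfold StR.c
  rw [← T2.cls_inv i f, cl_inv]

section

variable [hF : Fact (SS E)]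

/-- Multiplicativity. -/
theorem StR.c_prod (f : E.cp.L ((A × Fin 3) ⊕ C) (A ⊕ C))
    (g : E.cp.L ((A' × Fin 3) ⊕ C') (A' ⊕ C')) :
    StR.c (lrho (shC A C A' C') (shL A C A' C') (CSRS.prod f g)) = StR.c f * StR.c g :=
  cl_gmul (cls f) (cls g)

/-- The unit classes. -/
theorem StR.c_unit : StR.c (CSRS.prod (E.bott A) (E.cp.unit C)) = 1 := cl_unit

/-- Invariance under diagonal relabelling. -/
theorem StR.c_grho (α : A ≃ A') (γ : C ≃ C') (f : E.cp.L ((A × Fin 3) ⊕ C) (A ⊕ C)) :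
    StR.c (lrho (Equiv.sumCongr (trip α) γ) (Equiv.sumCongr α γ) f) = StR.c f :=
  cl_grho hF.out α γ (cls f)

/-- Arbitrary permutations of coordinates and levels change the class by the signs. -/
theorem StR.c_perm [Nonempty ((A × Fin 3) ⊕ C)] (e : Equiv.Perm ((A × Fin 3) ⊕ C))
    (a : Equiv.Perm (A ⊕ C)) (f : E.cp.L ((A × Fin 3) ⊕ C) (A ⊕ C)) :
    StR.c (lrho e a f) = ((Equiv.Perm.sign e * Equiv.Perm.sign a : ℤˣ) : ℤ) • StR.c f :=
  cl_rho_perm hF.out e a (cls f)

/-- Stabilisation by unit classes. -/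
theorem StR.c_stab (f : E.cp.L ((A × Fin 3) ⊕ C) (A ⊕ C)) :
    StR.c (lrho (shC A C B D) (shL A C B D) (CSRS.prod f (CSRS.prod (E.bott B) (E.cp.unit D)))) =
      StR.c f := by
  rw [StR.c_prod, StR.c_unit, mul_one]

end

end Pool.Agent.Tate.T2
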