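import Pool.Agent.Lib.Tate.T2.Api

/-! C42, block T2: classes up to sign.

`IsC f x`: the class of the loop `f : E.cp.L P B` (`P`, `B` arbitrary finite sets with
`|P| = 3 a + c`, `|B| = a + c`) in `StR E` is `x`, for one (equivalently, every) choice of the
bijections `P ≃ (A × 3) + C`, `B ≃ A + C`, up to the sign.  `InI K f`: it lies in the ideal `K`. -/

set_option linter.unusedSectionVars false

open Set Topology
open scoped unitInterval Topology.Homotopy

noncomputable section

namespace Pool.Agent.Tate.T2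

variable {E : CSRS} [hF : Fact (SS E)]
variable {P Q B D A C A' C' : Type} [Fintype P] [DecidableEq P] [Fintype Q] [DecidableEq Q]
  [Fintype B] [DecidableEq B] [Fintype D] [DecidableEq D]
  [Fintype A] [DecidableEq A] [Fintype C] [DecidableEq C] [Fintype A'] [DecidableEq A']
  [Fintype C'] [DecidableEq C']

theorem sign_smul_eq {R : Type*} [CommRing R] (u : ℤˣ) (x : R) : ((u : ℤ) • x) = x ∨ ((u : ℤ) • x) = -x := by
  rcases Int.units_eq_one_or u with h | h
  · left; rw [h]; simp
  · right; rw [h]; simp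

/-- Two choices of the bijections give the same class up to the sign. -/
theorem cl_two (x : E.cp.P P B) [Nonempty P] (eP : P ≃ (A × Fin 3) ⊕ C) (eB : B ≃ A ⊕ C)
    (eP' : P ≃ (A' × Fin 3) ⊕ C') (eB' : B ≃ A' ⊕ C') :
    cl (rho eP' eB' x : G E A' C') = cl (rho eP eB x : G E A C) ∨
      cl (rho eP' eB' x : G E A' C') = -cl (rho eP eB x : G E A C) := by
  have h1 := Fintype.card_congr (eP.symm.trans eP')
  have h2 := Fintype.card_congr (eB.symm.trans eB')
  simp only [Fintype.card_sum, Fintype.card_prod, Fintype.card_fin] at h1 h2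
  have hA : Fintype.card A = Fintype.card A' := by omega
  have hC : Fintype.card C = Fintype.card C' := by omega
  set α : A ≃ A' := Fintype.equivOfCardEq hA
  set γ : C ≃ C' := Fintype.equivOfCardEq hC
  have hn : Nonempty ((A × Fin 3) ⊕ C) := eP.symm.nonempty
  have h3 : (rho eP' eB' x : G E A' C') = grho α γ (rho (eP.symm.trans (eP'.trans
      (Equiv.sumCongr (trip α) γ).symm)) (eB.symm.trans (eB'.trans (Equiv.sumCongr α γ).symm))
      (rho eP eB x : G E A C)) := by
    unfold grho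
    rw [rho_rho, rho_rho]
    refine rho_congr ?_ ?_ x
    · ext i
      have h5 : ∀ z : (A' × Fin 3) ⊕ C', z = Sum.map (Prod.map (α : A → A') id)
          (γ : C → C') (Sum.map (Prod.map (α.symm : A' → A) id) (γ.symm : C' → C) z) := by
        rintro (⟨a, j⟩ | c) <;> simp
      simpa [trip] using h5 (eP' i)
    · ext i; simp
  rw [h3, cl_grho hF.out, cl_rho_perm hF.out]
  exact sign_smul_eq _ _

/-- The class of a loop is `x`, up to the sign. -/
def IsC (f : E.cp.L P B) (x : StR E) : Prop :=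
  ∃ (A C : Type) (_ : Fintype A) (_ : DecidableEq A) (_ : Fintype C) (_ : DecidableEq C)
    (eP : P ≃ (A × Fin 3) ⊕ C) (eB : B ≃ A ⊕ C),
    StR.c (lrho eP eB f) = x ∨ StR.c (lrho eP eB f) = -x

theorem IsC.c_eq {f : E.cp.L P B} {x : StR E} [Nonempty P] (h : IsC f x) (eP : P ≃ (A × Fin 3) ⊕ C)
    (eB : B ≃ A ⊕ C) : StR.c (lrho eP eB f) = x ∨ StR.c (lrho eP eB f) = -x := by
  obtain ⟨A', C', _, _, _, _, eP', eB', h⟩ := h
  have h2 := cl_two (cls f) eP' eB' eP eB
  change StR.c (lrho eP eB f) = StR.c (lrho eP' eB' f) ∨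
    StR.c (lrho eP eB f) = -StR.c (lrho eP' eB' f) at h2
  rcases h with h | h <;> rcases h2 with h2 | h2 <;> rw [h2, h] <;> simp

theorem isC_self (f : E.cp.L ((A × Fin 3) ⊕ C) (A ⊕ C)) : IsC f (StR.c f) :=
  ⟨A, C, inferInstance, inferInstance, inferInstance, inferInstance, Equiv.refl _, Equiv.refl _,
    Or.inl (by rw [lrho_refl])⟩

theorem isC_lrho_self (eP : P ≃ (A × Fin 3) ⊕ C) (eB : B ≃ A ⊕ C) (f : E.cp.L P B) :
    IsC f (StR.c (lrho eP eB f)) :=
  ⟨A, C, inferInstance, inferInstance, inferInstance, inferInstance, eP, eB, Or.inl rfl⟩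

theorem IsC.neg {f : E.cp.L P B} {x : StR E} (h : IsC f x) : IsC f (-x) := by
  obtain ⟨A, C, _, _, _, _, eP, eB, h⟩ := h
  refine ⟨A, C, inferInstance, inferInstance, inferInstance, inferInstance, eP, eB, ?_⟩
  rcases h with h | h
  · right; rw [h, neg_neg]
  · left; exact h

theorem IsC.homotopic {f g : E.cp.L P B} {x : StR E} (h : IsC f x) (hfg : GenLoop.Homotopic f g) :
    IsC g x := by
  obtain ⟨A, C, _, _, _, _, eP, eB, h⟩ := h
  refine ⟨A, C, inferInstance, inferInstance, inferInstance, inferInstance, eP, eB, ?_⟩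
  have h1 : StR.c (lrho eP eB g) = StR.c (lrho eP eB f) :=
    (StR.c_homotopic (relab_homotopic eP (push_homotopic eB hfg))).symm
  rwa [h1]

theorem IsC.lrho_iff {f : E.cp.L P B} {x : StR E} (e : P ≃ Q) (b : B ≃ D) :
    IsC (lrho e b f) x ↔ IsC f x := by
  constructor
  · rintro ⟨A, C, _, _, _, _, eP, eB, h⟩
    refine ⟨A, C, inferInstance, inferInstance, inferInstance, inferInstance, e.trans eP,
      b.trans eB, ?_⟩
    rwa [lrho_trans]
  · rintro ⟨A, C, _, _, _, _, eP, eB, h⟩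
    refine ⟨A, C, inferInstance, inferInstance, inferInstance, inferInstance, e.symm.trans eP,
      b.symm.trans eB, ?_⟩
    rw [← lrho_trans, ← Equiv.trans_assoc, ← Equiv.trans_assoc, Equiv.self_trans_symm,
      Equiv.self_trans_symm, Equiv.refl_trans, Equiv.refl_trans]
    exact h

/-- Uniqueness up to the sign. -/
theorem IsC.unique {f : E.cp.L P B} {x y : StR E} [Nonempty P] (h : IsC f x) (h' : IsC f y) :
    x = y ∨ x = -y := by
  obtain ⟨A, C, _, _, _, _, eP, eB, h⟩ := h
  have h2 := h'.c_eq eP eB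
  rcases h with h | h
  · rw [h] at h2; exact h2
  · rw [h] at h2
    rcases h2 with h2 | h2
    · right; rw [← h2, neg_neg]
    · left; exact neg_inj.1 h2

/-- Products. -/
theorem IsC.prod {f : E.cp.L P B} {g : E.cp.L Q D} {x y : StR E} (h : IsC f x) (h' : IsC g y) :
    IsC (CSRS.prod f g) (x * y) := by
  obtain ⟨A, C, _, _, _, _, eP, eB, h⟩ := h
  obtain ⟨A', C', _, _, _, _, eP', eB', h'⟩ := h'
  refine ⟨A ⊕ A', C ⊕ C', inferInstance, inferInstance, inferInstance, inferInstance,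
    (Equiv.sumCongr eP eP').trans (shC A C A' C'), (Equiv.sumCongr eB eB').trans (shL A C A' C'), ?_⟩
  rw [lrho_trans, lrho_prod, StR.c_prod]
  rcases h with h | h <;> rcases h' with h' | h' <;> rw [h, h'] <;> simp

theorem isC_unit : IsC (E.cp.unit A) 1 := by
  refine ⟨Empty, A, inferInstance, inferInstance, inferInstance, inferInstance,
    (Equiv.emptySum (Empty × Fin 3) A).symm, (Equiv.emptySum Empty A).symm, Or.inl ?_⟩
  have h1 : StR.c (CSRS.prod (E.bott Empty) (E.cp.unit A)) = 1 := StR.c_unit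
  have h2 : CSRS.prod (E.cp.unit Empty) (E.cp.unit A) =
      lrho (Equiv.sumCongr em3 (Equiv.refl A)) (Equiv.sumCongr (Equiv.refl Empty) (Equiv.refl A))
        (CSRS.prod (E.bott Empty) (E.cp.unit A)) := by
    rw [lrho_prod, bott_empty, lrho_refl]
  have h3 : CSRS.prod (E.bott Empty) (E.cp.unit A) =
      lrho (Equiv.sumCongr em3.symm (Equiv.refl A)) (Equiv.refl _)
        (CSRS.prod (E.cp.unit Empty) (E.cp.unit A)) := by
    rw [h2, ← lrho_trans]
    conv_lhs => rw [← lrho_refl (CSRS.prod (E.bott Empty) (E.cp.unit A))]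
    congr 1
    · ext (i | i)
      · exact (em3 i).elim
      · rfl
    · ext (i | i) <;> rfl
  rw [← h1, h3, prod_unit, ← lrho_unit (E := E.cp) (Equiv.emptySum Empty A).symm, ← lrho_trans]
  congr 2
  ext i; rfl

theorem isC_bott : IsC (E.bott A) 1 := by
  refine ⟨A, Empty, inferInstance, inferInstance, inferInstance, inferInstance,
    (Equiv.sumEmpty (A × Fin 3) Empty).symm, (Equiv.sumEmpty A Empty).symm, Or.inl ?_⟩
  have h1 : StR.c (CSRS.prod (E.bott A) (E.cp.unit Empty)) = 1 := StR.c_unit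
  rw [← h1]
  congr 1
  have h2 := one_prod (E.bott A)
  have h3 : CSRS.prod (E.bott A) (E.cp.unit Empty) =
      lrho (Equiv.sumComm _ _) (Equiv.sumComm _ _) (CSRS.prod (E.cp.unit Empty) (E.bott A)) :=
    (prod_comm _ _).symm
  conv_lhs => rw [← h2]
  rw [h3, ← lrho_trans]
  congr 1
  · ext (i | i)
    · exact i.elim
    · rfl
  · ext (i | i)
    · exact i.elim
    · rfl

theorem isC_const [Nonempty P] (eP : P ≃ (A × Fin 3) ⊕ C) (eB : B ≃ A ⊕ C) :
    IsC (GenLoop.const : E.cp.L P B) 0 := by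
  refine ⟨A, C, inferInstance, inferInstance, inferInstance, inferInstance, eP, eB, Or.inl ?_⟩
  have hn : Nonempty ((A × Fin 3) ⊕ C) := eP.symm.nonempty
  have h1 : lrho eP eB (GenLoop.const : E.cp.L P B) = GenLoop.const := by
    ext t; exact E.cp.map_pt eB
  rw [h1, StR.c_const]

/-- Concatenations: for fixed bijections the class is additive. -/
theorem c_lrho_transAt (eP : P ≃ (A × Fin 3) ⊕ C) (eB : B ≃ A ⊕ C) (i : P) (f g : E.cp.L P B) :
    StR.c (lrho eP eB (GenLoop.transAt i f g)) = StR.c (lrho eP eB f) + StR.c (lrho eP eB g) := by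
  have h1 : lrho eP eB (GenLoop.transAt i f g) =
      GenLoop.transAt (eP i) (lrho eP eB f) (lrho eP eB g) := by
    unfold lrho
    have h2 : CSRS.push eB (GenLoop.transAt i f g) =
        GenLoop.transAt i (CSRS.push eB f) (CSRS.push eB g) :=
      post_transAt (mapC E.cp eB) (E.cp.map_pt eB) i f g
    rw [h2, relab_transAt]
  rw [h1, StR.c_transAt]

theorem rho_inv [Nonempty P] [Nonempty Q] (e : P ≃ Q) (b : B ≃ D) (x : E.cp.P P B) :
    rho e b x⁻¹ = (rho e b x)⁻¹ := by
  have h := rho_mul e b x⁻¹ x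
  rw [inv_mul_cancel, rho_one] at h
  exact eq_inv_of_mul_eq_one_left h.symm

/-- Powers with the exponent `1` or `-1`. -/
theorem IsC.of_zpow [Nonempty P] {f g : E.cp.L P B} {x : StR E} (h : IsC f x) (ε : ℤˣ)
    (hfg : (cls f : E.cp.P P B) = cls g ^ (ε : ℤ)) : IsC g x := by
  obtain ⟨A, C, _, _, _, _, eP, eB, h⟩ := h
  have hn : Nonempty ((A × Fin 3) ⊕ C) := eP.nonempty_congr.1 inferInstance
  refine ⟨A, C, inferInstance, inferInstance, inferInstance, inferInstance, eP, eB, ?_⟩
  have h1 : StR.c (lrho eP eB f) = cl (rho eP eB (cls f) : G E A C) := rfl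
  have h2 : StR.c (lrho eP eB g) = cl (rho eP eB (cls g) : G E A C) := rfl
  rw [h1, hfg] at h
  rw [h2]
  rcases Int.units_eq_one_or ε with h3 | h3
  · rw [h3, Units.val_one, zpow_one] at h
    exact h
  · rw [h3, Units.val_neg, Units.val_one, zpow_neg_one, rho_inv, cl_inv] at h
    rcases h with h | h
    · right
      rw [← h, neg_neg]
    · left
      exact neg_inj.1 h

/-- The class lies in the ideal `K`. -/
def InI (K : Ideal (StR E)) (f : E.cp.L P B) : Prop := ∃ x ∈ K, IsC f x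

theorem InI.c_mem {K : Ideal (StR E)} {f : E.cp.L P B} [Nonempty P] (h : InI K f)
    (eP : P ≃ (A × Fin 3) ⊕ C) (eB : B ≃ A ⊕ C) : StR.c (lrho eP eB f) ∈ K := by
  obtain ⟨x, hx, h⟩ := h
  rcases h.c_eq eP eB with h | h
  · rwa [h]
  · rw [h]; exact K.neg_mem hx

theorem inI_of_c {K : Ideal (StR E)} {f : E.cp.L P B} (eP : P ≃ (A × Fin 3) ⊕ C) (eB : B ≃ A ⊕ C)
    (h : StR.c (lrho eP eB f) ∈ K) : InI K f := ⟨_, h, isC_lrho_self eP eB f⟩

theorem InI.homotopic {K : Ideal (StR E)} {f g : E.cp.L P B} (h : InI K f)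
    (hfg : GenLoop.Homotopic f g) : InI K g := by
  obtain ⟨x, hx, h⟩ := h
  exact ⟨x, hx, h.homotopic hfg⟩

theorem InI.lrho_iff {K : Ideal (StR E)} {f : E.cp.L P B} (e : P ≃ Q) (b : B ≃ D) :
    InI K (lrho e b f) ↔ InI K f := by
  unfold InI
  simp only [IsC.lrho_iff]

theorem InI.prod_left {K : Ideal (StR E)} {f : E.cp.L P B} {g : E.cp.L Q D} {y : StR E}
    (h : InI K f) (h' : IsC g y) : InI K (CSRS.prod f g) := by
  obtain ⟨x, hx, h⟩ := h
  exact ⟨x * y, K.mul_mem_right y hx, h.prod h'⟩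

theorem InI.prod_right {K : Ideal (StR E)} {f : E.cp.L P B} {g : E.cp.L Q D} {y : StR E}
    (h : InI K g) (h' : IsC f y) : InI K (CSRS.prod f g) := by
  obtain ⟨x, hx, h⟩ := h
  exact ⟨y * x, K.mul_mem_left y hx, h'.prod h⟩

theorem InI.prod_unit_iff {K : Ideal (StR E)} {f : E.cp.L P B} [Nonempty P] {z : StR E}
    (hf : IsC f z) : InI K (CSRS.prod f (E.cp.unit C)) ↔ InI K f := by
  constructor
  · rintro ⟨x, hx, h⟩
    have h2 : IsC (CSRS.prod f (E.cp.unit C)) (z * 1) := hf.prod isC_unit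
    rcases h2.unique h with h3 | h3
    · exact ⟨z, by rw [mul_one] at h3; rwa [h3], hf⟩
    · exact ⟨z, by rw [mul_one] at h3; rw [h3]; exact K.neg_mem hx, hf⟩
  · intro h
    exact h.prod_left isC_unit

end Pool.Agent.Tate.T2
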