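import Pool.Agent.Lib.Tate.T2.Sp

/-! C42, block T2: strong semistability, also for the smash product with projective spaces. -/

set_option linter.unusedSectionVars false

open Set Topology
open scoped unitInterval Topology.Homotopy

noncomputable section

namespace Pool.Agent.Tate.T2

/-- Strong semistability: even permutations act on the spaces by maps which are homotopic to the
identity, relative to the base point. -/
def SS (E : CSRS) : Prop :=
  ∀ (A : Type) [Fintype A] [DecidableEq A] (γ : Equiv.Perm A), Equiv.Perm.sign γ = 1 →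
    ∃ H : I × E.X A → E.X A, Continuous H ∧ (∀ x, H (0, x) = E.map γ x) ∧
      (∀ x, H (1, x) = x) ∧ ∀ t, H (t, E.pt A) = E.pt A

variable {E : CSRS}
variable {P Q A B : Type} [Fintype A] [DecidableEq A] [Fintype B] [DecidableEq B]

theorem SS.push_homotopic (h : SS E) (γ : Equiv.Perm A) (hγ : Equiv.Perm.sign γ = 1)
    (f : E.L P A) : GenLoop.Homotopic (CSRS.push γ f) f := by
  obtain ⟨H, hc, h0, h1, hb⟩ := h A γ hγ
  refine homotopic_of (fun p => H (p.1, f p.2))
    (hc.comp (continuous_fst.prodMk (f.1.continuous.comp continuous_snd))) ?_ ?_ ?_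
  · intro t; exact h0 _
  · intro t; exact h1 _
  · intro s t ht
    have : f t = E.pt A := GenLoop.boundary f t ht
    rw [this, hb]

/-- Strong semistability implies semistability. -/
theorem SS.semistable (h : SS E) : E.Semistable := by
  intro N A _ _ _ _ f γ hγ
  exact ⟨0, prod_homotopic (h.push_homotopic γ hγ f) (GenLoop.Homotopic.refl _)⟩

/-- A self-inverse unitary operator `S`: the path of unitary operators
`U t = (1 + S) / 2 + exp (i π t) (1 - S) / 2` from `1` to `S`. -/
def upath {n : Type} [Fintype n] [DecidableEq n] (S : Matrix n n ℂ) (z : ℂ) : Matrix n n ℂ :=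
  (1 / 2 : ℂ) • (1 + S) + (z / 2) • (1 - S)

theorem upath_mul {n : Type} [Fintype n] [DecidableEq n] (S : Matrix n n ℂ) (hS : S * S = 1)
    (z w : ℂ) (hzw : z * w = 1) : upath S z * upath S w = 1 := by
  unfold upath
  simp only [add_mul, mul_add, Matrix.smul_mul, Matrix.mul_smul, sub_mul, mul_sub, one_mul, mul_one,
    hS, smul_add, smul_sub, smul_smul]
  have h : z / 2 * (w / 2) = 1 / 4 := by
    rw [div_mul_div_comm, hzw]; norm_num
  have h' : w / 2 * (z / 2) = 1 / 4 := by rw [mul_comm, h]
  ext i j
  simp only [Matrix.add_apply, Matrix.sub_apply, Matrix.smul_apply, smul_eq_mul]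
  have h1 : z * w = 1 := hzw
  linear_combination ((1 : Matrix n n ℂ) i j / 2 - S i j / 2) * h1

theorem upath_conjTranspose {n : Type} [Fintype n] [DecidableEq n] (S : Matrix n n ℂ)
    (hS : S.conjTranspose = S) (z : ℂ) :
    (upath S z).conjTranspose = upath S (starRingEnd ℂ z) := by
  unfold upath
  rw [Matrix.conjTranspose_add, Matrix.conjTranspose_smul, Matrix.conjTranspose_smul,
    Matrix.conjTranspose_add, Matrix.conjTranspose_sub, Matrix.conjTranspose_one, hS]
  congr 1
  · congr 1
    simp
  · congr 1
    simp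

/-- conjugation of a line by a unitary operator -/
def PLconj {A : Type} [Fintype A] [DecidableEq A] (U : Mt A Bool)
    (hU : U.conjTranspose * U = 1) (p : PL A) : PL A :=
  ⟨U * p.1 * U.conjTranspose, by
    rw [Matrix.conjTranspose_mul, Matrix.conjTranspose_mul, Matrix.conjTranspose_conjTranspose,
      p.2.1, Matrix.mul_assoc], by
    calc U * p.1 * U.conjTranspose * (U * p.1 * U.conjTranspose) =
        U * p.1 * (U.conjTranspose * U) * p.1 * U.conjTranspose := by
          simp only [Matrix.mul_assoc]
      _ = U * (p.1 * p.1) * U.conjTranspose := by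
          rw [hU, Matrix.mul_one, Matrix.mul_assoc U]
      _ = _ := by rw [p.2.2.1], by
    rw [Matrix.mul_assoc, Matrix.trace_mul_comm, Matrix.mul_assoc, hU, Matrix.mul_one, p.2.2.2]⟩

/-- the permutation matrix -/
def pmat (γ : Equiv.Perm A) : Mt A Bool := fun a b => if b = a ∘ γ then 1 else 0

theorem pmat_mul_apply (γ : Equiv.Perm A) (p : Mt A Bool) (a b : A → Bool) :
    (pmat γ * p) a b = p (a ∘ γ) b := by
  rw [Matrix.mul_apply]
  unfold pmat
  simp

theorem pmat_swap_sq (i j : A) : pmat (Equiv.swap i j) * pmat (Equiv.swap i j) = 1 := by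
  ext a b
  rw [pmat_mul_apply]
  unfold pmat
  have : (a ∘ Equiv.swap i j) ∘ Equiv.swap i j = a := by
    funext k; simp
  rw [this, Matrix.one_apply]
  congr 1
  exact propext eq_comm

theorem pmat_swap_conj (i j : A) :
    (pmat (Equiv.swap i j)).conjTranspose = pmat (Equiv.swap i j) := by
  ext a b
  rw [Matrix.conjTranspose_apply]
  unfold pmat
  have h : (a = b ∘ Equiv.swap i j) ↔ (b = a ∘ Equiv.swap i j) := by
    constructor
    · rintro rfl; funext k; simp
    · rintro rfl; funext k; simp
  by_cases h' : a = b ∘ Equiv.swap i j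
  · rw [if_pos h', if_pos (h.1 h')]; simp
  · rw [if_neg h', if_neg (fun h'' => h' (h.2 h''))]; simp

/-- the angle `exp (i π (1 - t))` -/
def zt (t : I) : ℂ := Complex.exp ((Real.pi * (1 - t) : ℝ) * Complex.I)

theorem continuous_zt : Continuous zt := by
  unfold zt; fun_prop

theorem zt_conj_mul (t : I) : starRingEnd ℂ (zt t) * zt t = 1 := by
  rw [mul_comm, Complex.mul_conj, Complex.normSq_eq_norm_sq]
  unfold zt
  rw [Complex.norm_exp_ofReal_mul_I]
  simp

theorem zt_one : zt 1 = 1 := by unfold zt; simp

theorem zt_zero : zt 0 = -1 := by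
  unfold zt
  have : ((Real.pi * (1 - ((0 : I) : ℝ)) : ℝ) : ℂ) = Real.pi := by simp
  rw [this, Complex.exp_pi_mul_I]

theorem upath_unitary (i j : A) (t : I) :
    (upath (pmat (Equiv.swap i j)) (zt t)).conjTranspose * upath (pmat (Equiv.swap i j)) (zt t) =
      1 := by
  rw [upath_conjTranspose _ (pmat_swap_conj i j), upath_mul _ (pmat_swap_sq i j) _ _
    (zt_conj_mul t)]

theorem PL.exists_homotopy (γ : Equiv.Perm A) : ∃ K : I × PL A → PL A, Continuous K ∧
    (∀ p, K (0, p) = PL.map γ p) ∧ ∀ p, K (1, p) = p := by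
  induction γ using Equiv.Perm.swap_induction_on with
  | one => exact ⟨Prod.snd, continuous_snd, fun p => rfl, fun p => rfl⟩
  | swap_mul e i j hij ih =>
    obtain ⟨K, hK, h0, h1⟩ := ih
    refine ⟨fun q => PLconj (upath (pmat (Equiv.swap i j)) (zt q.1)) (upath_unitary i j q.1)
      (K q), ?_, ?_, ?_⟩
    · refine Continuous.subtype_mk ?_ _
      have hU : Continuous fun q : I × PL A => upath (pmat (Equiv.swap i j)) (zt q.1) := by
        unfold upath
        have := continuous_zt
        fun_prop
      have hK' : Continuous fun q : I × PL A => (K q).1 := continuous_subtype_val.comp hK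
      exact (hU.mul hK').mul (Continuous.matrix_conjTranspose hU)
    · intro p
      apply Subtype.ext
      change upath _ (zt 0) * (K (0, p)).1 * (upath _ (zt 0)).conjTranspose = _
      rw [zt_zero, h0]
      have hS : upath (pmat (Equiv.swap i j)) (-1) = pmat (Equiv.swap i j) := by
        unfold upath
        ext a b
        simp only [Matrix.add_apply, Matrix.sub_apply, Matrix.smul_apply, smul_eq_mul]
        ring
      rw [hS]
      ext a b
      have h2 : ∀ q : Mt A Bool, (q * (pmat (Equiv.swap i j)).conjTranspose) a b =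
          q a (b ∘ Equiv.swap i j) := fun q => by
        rw [Matrix.mul_apply]
        simp only [Matrix.conjTranspose_apply]
        unfold pmat
        simp
      rw [h2, pmat_mul_apply]
      rfl
    · intro p
      apply Subtype.ext
      change upath _ (zt 1) * (K (1, p)).1 * (upath _ (zt 1)).conjTranspose = _
      rw [zt_one, h1]
      have hS : upath (pmat (Equiv.swap i j)) 1 = 1 := by
        unfold upath
        ext a b
        simp only [Matrix.add_apply, Matrix.sub_apply, Matrix.smul_apply, smul_eq_mul]
        ring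
      rw [hS, Matrix.conjTranspose_one, Matrix.mul_one, Matrix.one_mul]

/-- Strong semistability of the smash product with projective spaces. -/
theorem SS.cp (h : SS E) : SS E.cp := by
  intro A _ _ γ hγ
  obtain ⟨H, hc, h0, h1, hb⟩ := h A γ hγ
  obtain ⟨K, kc, k0, k1⟩ := PL.exists_homotopy γ
  refine ⟨fun q => Sm.lift (fun x p => Sm.mk (H (q.1, x)) (K (q.1, p))) (by
    intro k k'
    rw [hb]
    exact Sm.mk_pt _ _) q.2, ?_, ?_, ?_, ?_⟩
  · have hp := (isProperMap_id (X := I)).prodMap (Sm.isProperMap (K := PL A) (E.closed_pt A))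
    have hq : IsQuotientMap (Prod.map (id : I → I)
        (fun p : E.X A × PL A => (Sm.mk p.1 p.2 : Sm (E.pt A) (PL A)))) :=
      hp.isClosedMap.isQuotientMap hp.continuous
        (Function.surjective_id.prodMap Sm.isQuotientMap.surjective)
    refine hq.continuous_iff.2 ?_
    refine Sm.isQuotientMap.continuous.comp (Continuous.prodMk ?_ ?_)
    · exact hc.comp (continuous_fst.prodMk (continuous_fst.comp continuous_snd))
    · exact kc.comp (continuous_fst.prodMk (continuous_snd.comp continuous_snd))
  · intro y
    obtain ⟨x, p, rfl⟩ := y.exists_rep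
    change Sm.mk (H (0, x)) (K (0, p)) = Sm.mk (E.map γ x) (PL.map γ p)
    rw [h0, k0]
  · intro y
    obtain ⟨x, p, rfl⟩ := y.exists_rep
    change Sm.mk (H (1, x)) (K (1, p)) = Sm.mk x p
    rw [h1, k1]
  · intro t
    change Sm.mk (H (t, E.pt A)) _ = Sm.mk (E.pt A) _
    rw [hb]
    exact Sm.mk_pt _ _

end Pool.Agent.Tate.T2
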