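import Mathlib

/-! C42, block T2: reparametrisation of generalized loops. -/

open Set Topology
open scoped unitInterval Topology.Homotopy

noncomputable section

namespace Pool.Agent.Tate.T2

variable {N X : Type*} [TopologicalSpace X] {x : X}

/-- clamping a point of `ℝ^N` to the cube -/
def clamp (t : N → ℝ) : N → I := fun i => projIcc 0 1 zero_le_one (t i)

theorem continuous_clamp : Continuous (clamp : (N → ℝ) → (N → I)) := by
  unfold clamp
  exact continuous_pi fun i => continuous_projIcc.comp (continuous_apply i)

theorem clamp_coe (t : N → I) : clamp (fun i => (t i : ℝ)) = t := by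
  funext i
  simp [clamp]

theorem clamp_mem_boundary {t : N → ℝ} (h : ∃ i, t i ≤ 0 ∨ 1 ≤ t i) :
    clamp t ∈ Cube.boundary N := by
  obtain ⟨i, hi | hi⟩ := h
  · exact ⟨i, Or.inl (projIcc_of_le_left _ hi)⟩
  · exact ⟨i, Or.inr (projIcc_of_right_le _ hi)⟩

/-- A self-map of the cube (with values in `ℝ^N`) which sends the boundary outside of the open
cube. -/
structure Rep (M N : Type*) where
  /-- the map -/
  toFun : C(M → I, N → ℝ)
  out : ∀ t ∈ Cube.boundary M, ∃ i, toFun t i ≤ 0 ∨ 1 ≤ toFun t i

/-- reparametrisation of a loop -/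
def rep {M : Type*} (f : Ω^ N X x) (φ : Rep M N) : Ω^ M X x :=
  ⟨f.1.comp ⟨fun t => clamp (φ.toFun t), continuous_clamp.comp φ.toFun.continuous⟩,
    fun t ht => f.2 _ (clamp_mem_boundary (φ.out t ht))⟩

theorem rep_apply {M : Type*} (f : Ω^ N X x) (φ : Rep M N) (t : M → I) :
    rep f φ t = f (clamp (φ.toFun t)) := rfl

/-- Homotopic reparametrisations give homotopic loops. -/
theorem rep_homotopic {M : Type*} (f : Ω^ N X x) (φ ψ : Rep M N) (H : C(I × (M → I), N → ℝ))
    (h0 : ∀ t, H (0, t) = φ.toFun t) (h1 : ∀ t, H (1, t) = ψ.toFun t)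
    (hb : ∀ s, ∀ t ∈ Cube.boundary M, ∃ i, H (s, t) i ≤ 0 ∨ 1 ≤ H (s, t) i) :
    GenLoop.Homotopic (rep f φ) (rep f ψ) := by
  refine ⟨⟨⟨⟨fun p => f (clamp (H p)), ?_⟩, ?_, ?_⟩, ?_⟩⟩
  · exact f.1.continuous.comp (continuous_clamp.comp H.continuous)
  · intro t
    change f (clamp (H (0, t))) = _
    rw [h0]; rfl
  · intro t
    change f (clamp (H (1, t))) = _
    rw [h1]; rfl
  · intro s t ht
    change f (clamp (H (s, t))) = rep f φ t
    have e1 : f (clamp (H (s, t))) = x := f.2 _ (clamp_mem_boundary (hb s t ht))
    have e2 : rep f φ t = x := (rep f φ).2 t ht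
    rw [e1, e2]

/-- A homotopy of loops from a map on `I × I^N`. -/
theorem homotopic_of {f g : Ω^ N X x} (H : I × (N → I) → X) (hc : Continuous H)
    (h0 : ∀ t, H (0, t) = f t) (h1 : ∀ t, H (1, t) = g t)
    (hb : ∀ s, ∀ t ∈ Cube.boundary N, H (s, t) = x) : GenLoop.Homotopic f g := by
  refine ⟨⟨⟨⟨H, hc⟩, h0, h1⟩, ?_⟩⟩
  intro s t ht
  exact (hb s t ht).trans (f.2 t ht).symm

/-- A homotopy of loops, extracted. -/
theorem Homotopic.exists_map {f g : Ω^ N X x} (h : GenLoop.Homotopic f g) :
    ∃ H : I × (N → I) → X, Continuous H ∧ (∀ t, H (0, t) = f t) ∧ (∀ t, H (1, t) = g t) ∧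
      ∀ s, ∀ t ∈ Cube.boundary N, H (s, t) = x := by
  obtain ⟨F⟩ := h
  refine ⟨F, F.continuous, F.apply_zero, F.apply_one, fun s t ht => ?_⟩
  rw [F.eq_fst s ht]
  exact f.2 t ht

/-- the class of a loop -/
def cls (f : Ω^ N X x) : HomotopyGroup N X x := Quotient.mk (GenLoop.Homotopic.setoid N x) f

theorem cls_eq {f g : Ω^ N X x} : cls f = cls g ↔ GenLoop.Homotopic f g := Quotient.eq

theorem cls_ind {p : HomotopyGroup N X x → Prop} (h : ∀ f, p (cls f)) (a) : p a :=
  Quotient.inductionOn a h

variable [DecidableEq N]

theorem cls_one [Nonempty N] : (1 : HomotopyGroup N X x) = cls GenLoop.const := rfl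

theorem cls_mul [Nonempty N] (i : N) (f g : Ω^ N X x) :
    cls f * cls g = cls (GenLoop.transAt i g f) := HomotopyGroup.mul_spec

theorem cls_inv [Nonempty N] (i : N) (f : Ω^ N X x) :
    (cls f)⁻¹ = cls (GenLoop.symmAt i f) := HomotopyGroup.inv_spec

/-- Rotation by a quarter turn in the plane of the coordinates `i` and `j`. -/
theorem quarter (f g : Ω^ N X x) {i j : N} (hij : i ≠ j)
    (hg : ∀ t : N → I, g t = f (Function.update (Function.update t i (t j)) j (σ (t i)))) :
    GenLoop.Homotopic f g := by
  -- centred coordinates `u = 2 t - 1`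
  let D : I → ℝ := fun s => (1 - (s : ℝ)) ^ 2 + (s : ℝ) ^ 2
  have hD : ∀ s, 0 < D s := fun s => by
    change 0 < (1 - (s : ℝ)) ^ 2 + (s : ℝ) ^ 2
    nlinarith [sq_nonneg (1 - 2 * (s : ℝ))]
  let P : I × (N → I) → N → ℝ := fun p =>
    Function.update (Function.update (fun k => (p.2 k : ℝ)) i
      ((((1 - (p.1 : ℝ)) * (2 * (p.2 i : ℝ) - 1) + p.1 * (2 * (p.2 j : ℝ) - 1)) / D p.1 + 1) / 2)) j
      ((((1 - (p.1 : ℝ)) * (2 * (p.2 j : ℝ) - 1) - p.1 * (2 * (p.2 i : ℝ) - 1)) / D p.1 + 1) / 2)
  have hP : Continuous P := by
    have hDc : Continuous fun p : I × (N → I) => D p.1 := by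
      simp only [D]; fun_prop
    refine Continuous.update (Continuous.update (by fun_prop) i ?_) j ?_
    · refine Continuous.div_const (Continuous.add (Continuous.div (by fun_prop) hDc
        fun p => (hD p.1).ne') continuous_const) 2
    · refine Continuous.div_const (Continuous.add (Continuous.div (by fun_prop) hDc
        fun p => (hD p.1).ne') continuous_const) 2
  refine homotopic_of (fun p => f (clamp (P p))) (f.1.continuous.comp (continuous_clamp.comp hP))
    ?_ ?_ ?_
  · intro t
    have : P (0, t) = fun k => (t k : ℝ) := by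
      funext k
      simp only [P, D]
      rcases eq_or_ne k j with rfl | hk
      · simp
      · rw [Function.update_of_ne hk]
        rcases eq_or_ne k i with rfl | hk'
        · simp
        · rw [Function.update_of_ne hk']
    change f (clamp (P (0, t))) = f t
    rw [this, clamp_coe]
  · intro t
    have : P (1, t) = fun k => ((Function.update (Function.update t i (t j)) j (σ (t i)) k : I) : ℝ) := by
      funext k
      simp only [P, D]
      rcases eq_or_ne k j with rfl | hk
      · simp
        ring
      · rw [Function.update_of_ne hk, Function.update_of_ne hk]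
        rcases eq_or_ne k i with rfl | hk'
        · simp
        · rw [Function.update_of_ne hk', Function.update_of_ne hk']
    change f (clamp (P (1, t))) = g t
    rw [this, clamp_coe, hg]
  · intro s t ht
    refine f.2 _ (clamp_mem_boundary ?_)
    obtain ⟨k, hk⟩ := ht
    by_cases hki : k ≠ i ∧ k ≠ j
    · refine ⟨k, ?_⟩
      simp only [P]
      rw [Function.update_of_ne hki.2, Function.update_of_ne hki.1]
      rcases hk with hk | hk
      · left; rw [hk]; simp
      · right; rw [hk]; simp
    · -- the boundary of the square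
      set a : ℝ := 2 * (t i : ℝ) - 1 with ha
      set b : ℝ := 2 * (t j : ℝ) - 1 with hb
      have hab : 1 ≤ max |a| |b| := by
        have : k = i ∨ k = j := by tauto
        rcases this with rfl | rfl
        · refine le_max_of_le_left ?_
          rcases hk with hk | hk
          · rw [ha, hk]; simp
          · rw [ha, hk]; norm_num
        · refine le_max_of_le_right ?_
          rcases hk with hk | hk
          · rw [hb, hk]; simp
          · rw [hb, hk]; norm_num
      set s' : ℝ := (s : ℝ) with hs'
      have s0 : 0 ≤ s' := s.2.1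
      have s1 : s' ≤ 1 := s.2.2
      set A : ℝ := ((1 - s') * a + s' * b) / D s with hA
      set B : ℝ := ((1 - s') * b - s' * a) / D s with hB
      have hPi : P (s, t) i = (A + 1) / 2 := by
        simp only [P]
        rw [Function.update_of_ne hij, Function.update_self]
      have hPj : P (s, t) j = (B + 1) / 2 := by
        simp only [P]
        rw [Function.update_self]
      have e1 : (1 - s') * A - s' * B = a := by
        rw [hA, hB]
        have := (hD s).ne'
        field_simp
        change _ = a * ((1 - s') ^ 2 + s' ^ 2)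
        ring
      have e2 : (1 - s') * B + s' * A = b := by
        rw [hA, hB]
        have := (hD s).ne'
        field_simp
        change _ = b * ((1 - s') ^ 2 + s' ^ 2)
        ring
      have hAB : 1 ≤ max |A| |B| := by
        refine hab.trans ?_
        have hA' : |A| ≤ max |A| |B| := le_max_left _ _
        have hB' : |B| ≤ max |A| |B| := le_max_right _ _
        refine max_le ?_ ?_
        · rw [← e1]
          calc |(1 - s') * A - s' * B| ≤ |(1 - s') * A| + |s' * B| := abs_sub _ _
            _ = (1 - s') * |A| + s' * |B| := by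
                rw [abs_mul, abs_mul, abs_of_nonneg s0, abs_of_nonneg (by linarith)]
            _ ≤ (1 - s') * max |A| |B| + s' * max |A| |B| := by
                gcongr
            _ = max |A| |B| := by ring
        · rw [← e2]
          calc |(1 - s') * B + s' * A| ≤ |(1 - s') * B| + |s' * A| := abs_add_le _ _
            _ = (1 - s') * |B| + s' * |A| := by
                rw [abs_mul, abs_mul, abs_of_nonneg s0, abs_of_nonneg (by linarith)]
            _ ≤ (1 - s') * max |A| |B| + s' * max |A| |B| := by
                gcongr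
            _ = max |A| |B| := by ring
      rcases le_max_iff.1 hAB with h | h
      · refine ⟨i, ?_⟩
        rw [hPi]
        rcases le_abs.1 h with h | h
        · right; linarith
        · left; linarith
      · refine ⟨j, ?_⟩
        rw [hPj]
        rcases le_abs.1 h with h | h
        · right; linarith
        · left; linarith

end Pool.Agent.Tate.T2
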