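import Pool.Agent.Lib.Tate.T2.Sp

/-! C42, block T2: the groups `G A C = π_{(A × 3) + C} (E ∧ CP^∞_+)(A + C)`, their products and
relabellings. -/

set_option linter.unusedSectionVars false

open Set Topology
open scoped unitInterval Topology.Homotopy

noncomputable section

namespace Pool.Agent.Tate.T2

section general

variable {E : CSRS} {P Q R P' Q' A B C A' B' : Type} [Fintype A] [DecidableEq A] [Fintype B]
  [DecidableEq B] [Fintype C] [DecidableEq C] [Fintype A'] [DecidableEq A'] [Fintype B']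
  [DecidableEq B']

theorem hmul_rho_left (e : P ≃ P') (a : A ≃ A') (f : E.P P A) (g : E.P Q B) :
    hmul (rho e a f) g = rho (Equiv.sumCongr e (Equiv.refl Q))
      (Equiv.sumCongr a (Equiv.refl B)) (hmul f g) := by
  conv_lhs => rw [← rho_refl g]
  rw [hmul_rho]

theorem hmul_rho_right (e : Q ≃ Q') (a : B ≃ B') (f : E.P P A) (g : E.P Q B) :
    hmul f (rho e a g) = rho (Equiv.sumCongr (Equiv.refl P) e)
      (Equiv.sumCongr (Equiv.refl A) a) (hmul f g) := by
  conv_lhs => rw [← rho_refl f]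
  rw [hmul_rho]

theorem hmul_assoc_symm (f : E.P P A) (g : E.P Q B) (h : E.P R C) :
    hmul (hmul f g) h =
    rho (Equiv.sumAssoc P Q R).symm (Equiv.sumAssoc A B C).symm (hmul f (hmul g h)) := by
  rw [hmul_assoc, rho_rho, Equiv.self_trans_symm, Equiv.self_trans_symm, rho_refl]

theorem rho_congr {e e' : P ≃ Q} {a a' : A ≃ B} (h : e = e') (h' : a = a') (f : E.P P A) :
    rho e a f = rho e' a' f := by rw [h, h']

end general

variable (E : CSRS)

/-- The groups of the localised stable ring: level `A` of the Bott direction, level `C` of the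
suspension direction. -/
abbrev G (A C : Type) [Fintype A] [DecidableEq A] [Fintype C] [DecidableEq C] : Type :=
  E.cp.P ((A × Fin 3) ⊕ C) (A ⊕ C)

variable {E}

/-- a bijection on triples -/
abbrev trip {A B : Type} (e : A ≃ B) : A × Fin 3 ≃ B × Fin 3 := Equiv.prodCongr e (Equiv.refl _)

/-- the shuffle of the coordinates -/
def shC (A C A' C' : Type) : ((A × Fin 3) ⊕ C) ⊕ ((A' × Fin 3) ⊕ C') ≃
    ((A ⊕ A') × Fin 3) ⊕ (C ⊕ C') where
  toFun := Sum.elim (Sum.elim (fun a => Sum.inl (Sum.inl a.1, a.2)) (fun c => Sum.inr (Sum.inl c)))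
    (Sum.elim (fun a => Sum.inl (Sum.inr a.1, a.2)) (fun c => Sum.inr (Sum.inr c)))
  invFun := Sum.elim (fun p => Sum.elim (fun a => Sum.inl (Sum.inl (a, p.2)))
    (fun a => Sum.inr (Sum.inl (a, p.2))) p.1)
    (Sum.elim (fun c => Sum.inl (Sum.inr c)) (fun c => Sum.inr (Sum.inr c)))
  left_inv := by rintro ((⟨a, i⟩ | c) | (⟨a, i⟩ | c)) <;> rfl
  right_inv := by rintro (⟨a | a, i⟩ | (c | c)) <;> rfl

/-- the shuffle of the levels -/
def shL (A C A' C' : Type) : (A ⊕ C) ⊕ (A' ⊕ C') ≃ (A ⊕ A') ⊕ (C ⊕ C') where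
  toFun := Sum.elim (Sum.elim (fun a => Sum.inl (Sum.inl a)) (fun c => Sum.inr (Sum.inl c)))
    (Sum.elim (fun a => Sum.inl (Sum.inr a)) (fun c => Sum.inr (Sum.inr c)))
  invFun := Sum.elim (Sum.elim (fun a => Sum.inl (Sum.inl a)) (fun a => Sum.inr (Sum.inl a)))
    (Sum.elim (fun c => Sum.inl (Sum.inr c)) (fun c => Sum.inr (Sum.inr c)))
  left_inv := by rintro ((a | c) | (a | c)) <;> rfl
  right_inv := by rintro ((a | a) | (c | c)) <;> rfl

variable {A B C D A' B' C' D' A'' C'' : Type} [Fintype A] [DecidableEq A] [Fintype B] [DecidableEq B]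
  [Fintype C] [DecidableEq C] [Fintype D] [DecidableEq D] [Fintype A'] [DecidableEq A']
  [Fintype B'] [DecidableEq B'] [Fintype C'] [DecidableEq C'] [Fintype D'] [DecidableEq D']
  [Fintype A''] [DecidableEq A''] [Fintype C''] [DecidableEq C'']

/-- the product -/
def gmul (x : G E A C) (y : G E A' C') : G E (A ⊕ A') (C ⊕ C') :=
  rho (shC A C A' C') (shL A C A' C') (hmul x y)

/-- diagonal relabelling -/
def grho (α : A ≃ A') (γ : C ≃ C') (x : G E A C) : G E A' C' :=
  rho (Equiv.sumCongr (trip α) γ) (Equiv.sumCongr α γ) x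

theorem grho_refl (x : G E A C) : grho (Equiv.refl A) (Equiv.refl C) x = x := by
  unfold grho
  have h1 : Equiv.sumCongr (trip (Equiv.refl A)) (Equiv.refl C) = Equiv.refl _ := by
    ext (⟨a, i⟩ | c) <;> rfl
  have h2 : Equiv.sumCongr (Equiv.refl A) (Equiv.refl C) = Equiv.refl _ := by
    ext (a | c) <;> rfl
  rw [h1, h2, rho_refl]

theorem grho_grho (α : A ≃ A') (γ : C ≃ C') (α' : A' ≃ A'') (γ' : C' ≃ C'') (x : G E A C) :
    grho α' γ' (grho α γ x) = grho (α.trans α') (γ.trans γ') x := by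
  unfold grho
  rw [rho_rho]
  refine rho_congr ?_ ?_ _
  · ext (⟨a, i⟩ | c) <;> rfl
  · ext (a | c) <;> rfl

theorem gmul_grho (α : A ≃ A') (γ : C ≃ C') (β : B ≃ B') (δ : D ≃ D') (x : G E A C)
    (y : G E B D) : gmul (grho α γ x) (grho β δ y) =
      grho (Equiv.sumCongr α β) (Equiv.sumCongr γ δ) (gmul x y) := by
  unfold gmul grho
  rw [hmul_rho, rho_rho, rho_rho]
  refine rho_congr ?_ ?_ _
  · ext ((⟨a, i⟩ | c) | (⟨a, i⟩ | c)) <;> rfl
  · ext ((a | c) | (a | c)) <;> rfl

theorem gmul_assoc (x : G E A C) (y : G E A' C') (z : G E A'' C'') :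
    grho (Equiv.sumAssoc A A' A'') (Equiv.sumAssoc C C' C'') (gmul (gmul x y) z) =
      gmul x (gmul y z) := by
  unfold gmul grho
  rw [hmul_rho_left, hmul_rho_right, rho_rho, rho_rho, rho_rho, hmul_assoc_symm, rho_rho]
  refine rho_congr ?_ ?_ _
  · ext ((⟨a, i⟩ | c) | ((⟨a, i⟩ | c) | (⟨a, i⟩ | c))) <;> rfl
  · ext ((a | c) | ((a | c) | (a | c))) <;> rfl

theorem gmul_comm (x : G E A C) (y : G E A' C') :
    grho (Equiv.sumComm A A') (Equiv.sumComm C C') (gmul x y) = gmul y x := by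
  unfold gmul grho
  rw [hmul_comm x y, rho_rho, rho_rho]
  refine rho_congr ?_ ?_ _
  · ext ((⟨a, i⟩ | c) | (⟨a, i⟩ | c)) <;> rfl
  · ext ((a | c) | (a | c)) <;> rfl

theorem gmul_mul_left [Nonempty C] (x x' : G E A C) (y : G E A' C') [Nonempty (C ⊕ C')] :
    gmul (x * x') y = gmul x y * gmul x' y := by
  unfold gmul
  rw [hmul_mul_left, rho_mul]

theorem gmul_mul_right [Nonempty C'] (x : G E A C) (y y' : G E A' C') [Nonempty (C ⊕ C')] :
    gmul x (y * y') = gmul x y * gmul x y' := by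
  unfold gmul
  rw [hmul_mul_right, rho_mul]

theorem grho_mul [Nonempty C] [Nonempty C'] (α : A ≃ A') (γ : C ≃ C') (x y : G E A C) :
    grho α γ (x * y) = grho α γ x * grho α γ y := by
  unfold grho
  rw [rho_mul]

/-! ### The unit classes -/

theorem PL.map_tens (e : A ≃ B)
    (f : B → {p : Matrix Bool Bool ℂ // p.conjTranspose = p ∧ p * p = p ∧ p.trace = 1}) :
    PL.map e (PL.tens fun a => f (e a)) = PL.tens f := by
  apply Subtype.ext
  ext a b
  change ∏ c, (f (e c)).1 ((a ∘ e) c) ((b ∘ e) c) = ∏ c, (f c).1 (a c) (b c)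
  exact Fintype.prod_equiv e _ _ fun c => rfl

theorem PL.mul_tens
    (f : A ⊕ B → {p : Matrix Bool Bool ℂ // p.conjTranspose = p ∧ p * p = p ∧ p.trace = 1}) :
    PL.mul (PL.tens fun a => f (Sum.inl a)) (PL.tens fun b => f (Sum.inr b)) = PL.tens f := by
  apply Subtype.ext
  ext a b
  change (∏ c, (f (Sum.inl c)).1 ((a ∘ Sum.inl) c) ((b ∘ Sum.inl) c)) *
    (∏ c, (f (Sum.inr c)).1 ((a ∘ Sum.inr) c) ((b ∘ Sum.inr) c)) = ∏ c, (f c).1 (a c) (b c)
  rw [Fintype.prod_sum_type]
  rfl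

theorem lrho_bott (e : A ≃ B) : lrho (trip e) e (E.bott A) = E.bott B := by
  ext t
  change Sm.mk (E.map e (E.unit A fun c => rad fun i => t (e c, i)))
    (PL.map e (PL.tens fun c => ln (ctr fun i => t (e c, i)))) =
    Sm.mk (E.unit B fun c => rad fun i => t (c, i)) (PL.tens fun c => ln (ctr fun i => t (c, i)))
  rw [PL.map_tens e (fun c => ln (ctr fun i => t (c, i))), E.map_unit]
  congr 2
  funext c
  change (rad fun i => t (e (e.symm c), i)) = _
  rw [e.apply_symm_apply]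

theorem prod_bott : lrho (Equiv.sumProdDistrib A B (Fin 3)).symm (Equiv.refl _)
    (CSRS.prod (E.bott A) (E.bott B)) = E.bott (A ⊕ B) := by
  ext t
  rw [lrho_apply]
  refine (E.cp.map_refl (A := A ⊕ B) _).trans ?_
  change Sm.mk (E.mul (E.unit A fun c => rad fun i => t (Sum.inl c, i))
    (E.unit B fun c => rad fun i => t (Sum.inr c, i)))
    (PL.mul (PL.tens fun c => ln (ctr fun i => t (Sum.inl c, i)))
      (PL.tens fun c => ln (ctr fun i => t (Sum.inr c, i)))) =
    Sm.mk (E.unit (A ⊕ B) fun c => rad fun i => t (c, i))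
      (PL.tens fun c => ln (ctr fun i => t (c, i)))
  rw [PL.mul_tens (fun c => ln (ctr fun i => t (c, i))), E.unit_mul]
  congr 2
  funext c
  rcases c with c | c <;> rfl

/-- the bijection `Empty × Fin 3 ≃ Empty` -/
def em3 : Empty × Fin 3 ≃ Empty := Equiv.equivOfIsEmpty _ _

theorem bott_empty : lrho em3 (Equiv.refl Empty) (E.bott Empty) = E.cp.unit Empty := by
  ext t
  rw [lrho_apply]
  refine (E.cp.map_refl (A := Empty) _).trans ?_
  change Sm.mk (E.unit Empty fun c => rad fun i => t (em3 (c, i)))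
    (PL.tens fun c => ln (ctr fun i => t (em3 (c, i)))) = Sm.mk (E.unit Empty t) (PL.one Empty)
  congr 1
  · congr 1
    funext c
    exact c.elim

variable (E) in
/-- the unit classes `b ^ A * ι ^ C` -/
def U (A C : Type) [Fintype A] [DecidableEq A] [Fintype C] [DecidableEq C] : G E A C :=
  cls (CSRS.prod (E.bott A) (E.cp.unit C))

theorem grho_U (α : A ≃ A') (γ : C ≃ C') : grho α γ (U E A C) = U E A' C' := by
  unfold grho U
  rw [rho_mk, lrho_prod, lrho_bott, lrho_unit]

theorem gmul_U : gmul (U E A C) (U E A' C') = U E (A ⊕ A') (C ⊕ C') := by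
  unfold gmul U
  rw [← hmul_mk, ← hmul_mk, ← hmul_mk]
  have h1 : (cls (E.bott (A ⊕ A')) : E.cp.P _ _) =
      rho (Equiv.sumProdDistrib A A' (Fin 3)).symm (Equiv.refl _)
        (hmul (cls (E.bott A)) (cls (E.bott A'))) := by
    rw [hmul_mk, rho_mk, prod_bott]
  have h2 : (cls (E.cp.unit (C ⊕ C')) : E.cp.P _ _) =
      hmul (cls (E.cp.unit C)) (cls (E.cp.unit C')) := by
    rw [hmul_mk, prod_unit]
  rw [h1, h2, hmul_rho_left]
  -- both sides in the form `rho (hmul b (hmul b' (hmul u u')))`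
  set b := (cls (E.bott A) : E.cp.P _ _)
  set b' := (cls (E.bott A') : E.cp.P _ _)
  set u := (cls (E.cp.unit C) : E.cp.P _ _)
  set u' := (cls (E.cp.unit C') : E.cp.P _ _)
  rw [hmul_assoc_symm b b' (hmul u u'), hmul_assoc_symm b u (hmul b' u'), rho_rho, rho_rho]
  have h3 : hmul u (hmul b' u') = rho ((((Equiv.sumAssoc (A' × Fin 3) C C').symm.trans
      (Equiv.sumCongr (Equiv.sumComm _ _) (Equiv.refl C'))).trans
        (Equiv.sumAssoc C (A' × Fin 3) C')))
      ((((Equiv.sumAssoc A' C C').symm.trans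
      (Equiv.sumCongr (Equiv.sumComm _ _) (Equiv.refl C'))).trans
        (Equiv.sumAssoc C A' C'))) (hmul b' (hmul u u')) := by
    rw [hmul_assoc u b' u', hmul_comm b' u, hmul_rho_left, rho_rho, hmul_assoc_symm, rho_rho]
    refine rho_congr ?_ ?_ _
    · ext (a | (c | c)) <;> rfl
    · ext (a | (c | c)) <;> rfl
  rw [h3, hmul_rho_right, rho_rho]
  refine rho_congr ?_ ?_ _
  · ext (⟨a, i⟩ | (⟨a, i⟩ | (c | c))) <;> rfl
  · ext (a | (a | (c | c))) <;> rfl

theorem one_gmul (x : G E A C) :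
    grho (Equiv.emptySum Empty A) (Equiv.emptySum Empty C) (gmul (U E Empty Empty) x) = x := by
  unfold gmul grho U
  rw [← hmul_mk, rho_rho]
  have h1 : (cls (E.cp.unit Empty) : E.cp.P _ _) =
      rho em3 (Equiv.refl _) (cls (E.bott Empty)) := by
    rw [rho_mk, bott_empty]
  have h2 := one_hmul x
  have h3 : hmul (hmul (cls (E.bott Empty) : E.cp.P _ _) (cls (E.cp.unit Empty))) x =
      rho (Equiv.sumCongr (((Equiv.emptySum Empty Empty).symm.trans
        (Equiv.sumCongr em3.symm (Equiv.refl _))))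
        (Equiv.refl _)) (Equiv.sumCongr ((Equiv.emptySum Empty Empty).symm.trans
        (Equiv.sumCongr (Equiv.refl _) (Equiv.refl _))) (Equiv.refl _))
        (hmul (cls (E.cp.unit Empty)) x) := by
    rw [← hmul_rho_left]
    congr 1
    rw [← rho_rho]
    have h4 := one_hmul (cls (E.cp.unit Empty) : E.cp.P Empty Empty)
    have h5 : rho (Equiv.emptySum Empty Empty).symm (Equiv.emptySum Empty Empty).symm
        (cls (E.cp.unit Empty) : E.cp.P Empty Empty) =
        hmul (cls (E.cp.unit Empty)) (cls (E.cp.unit Empty)) := by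
      conv_lhs => rw [← h4]
      rw [rho_rho, Equiv.self_trans_symm, rho_refl]
    rw [h5, ← hmul_rho, rho_refl]
    congr 1
    rw [h1, rho_rho, Equiv.self_trans_symm, Equiv.refl_trans, rho_refl]
  rw [h3, rho_rho]
  refine Eq.trans (rho_congr ?_ ?_ _) h2
  · ext (c | (⟨a, i⟩ | c))
    · exact c.elim
    · rfl
    · rfl
  · ext (c | (a | c))
    · exact c.elim
    · rfl
    · rfl

end Pool.Agent.Tate.T2
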