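import Pool.Agent.Lib.Tate.T2.G
import Pool.Agent.Lib.Tate.T2.SS

/-! C42, block T2: diagonal permutations act trivially in the stable range. -/

set_option linter.unusedSectionVars false

open Set Topology
open scoped unitInterval Topology.Homotopy

noncomputable section

namespace Pool.Agent.Tate.T2

variable {E : CSRS}
variable {A B C D A' B' C' D' A'' C'' : Type} [Fintype A] [DecidableEq A] [Fintype B] [DecidableEq B]
  [Fintype C] [DecidableEq C] [Fintype D] [DecidableEq D] [Fintype A'] [DecidableEq A']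
  [Fintype B'] [DecidableEq B'] [Fintype C'] [DecidableEq C'] [Fintype D'] [DecidableEq D']
  [Fintype A''] [DecidableEq A''] [Fintype C''] [DecidableEq C'']

theorem rho_even (h : SS E) {P : Type} [Fintype P] [DecidableEq P] [Nonempty P]
    (e : Equiv.Perm P) (a : Equiv.Perm A) (he : Equiv.Perm.sign e = 1)
    (ha : Equiv.Perm.sign a = 1) (x : E.P P A) : rho e a x = x := by
  induction x using cls_ind with | _ f
  have h1 : rho e a (cls f) = relabH e (cls (CSRS.push a f)) := rfl
  rw [h1, cls_eq.2 (h.push_homotopic a ha f), relabH_even e he]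

theorem sign_trip (α : Equiv.Perm A) :
    Equiv.Perm.sign (trip α : Equiv.Perm (A × Fin 3)) = Equiv.Perm.sign α := by
  have h : (trip α : Equiv.Perm (A × Fin 3)) = Equiv.prodCongrLeft fun _ => α := by
    ext ⟨a, i⟩ <;> rfl
  rw [h, Equiv.Perm.sign_prodCongrLeft]
  simp only [Finset.prod_const, Finset.card_univ, Fintype.card_fin]
  rcases Int.units_eq_one_or (Equiv.Perm.sign α) with h | h <;> rw [h] <;> rfl

theorem sign_sum (α : Equiv.Perm A) (γ : Equiv.Perm C) :
    Equiv.Perm.sign (Equiv.sumCongr α γ : Equiv.Perm (A ⊕ C)) =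
      Equiv.Perm.sign α * Equiv.Perm.sign γ :=
  Equiv.Perm.sign_sumCongr α γ

/-- Even diagonal permutations act trivially. -/
theorem grho_even (h : SS E) [Nonempty C] (α : Equiv.Perm A) (γ : Equiv.Perm C)
    (hs : Equiv.Perm.sign α * Equiv.Perm.sign γ = 1) (x : G E A C) : grho α γ x = x := by
  unfold grho
  refine rho_even h.cp _ _ ?_ ?_ x
  · exact (sign_sum (trip α) γ).trans (by rw [sign_trip, hs])
  · exact (sign_sum α γ).trans hs

/-- All diagonal permutations act trivially after multiplication with two suspension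
coordinates. -/
theorem grho_gmul_U (h : SS E) [Nontrivial D] (α : Equiv.Perm A) (γ : Equiv.Perm C)
    (x : G E A C) : gmul (grho α γ x) (U E B D) = gmul x (U E B D) := by
  by_cases hs : Equiv.Perm.sign α * Equiv.Perm.sign γ = 1
  · conv_lhs => rw [← grho_U (E := E) (Equiv.refl B) (Equiv.refl D)]
    rw [gmul_grho]
    refine grho_even h _ _ ?_ _
    have h1 := Equiv.Perm.sign_sumCongr α (Equiv.refl B : Equiv.Perm B)
    have h2 := Equiv.Perm.sign_sumCongr γ (Equiv.refl D : Equiv.Perm D)
    have h3 : Equiv.Perm.sign (Equiv.refl B : Equiv.Perm B) = 1 := Equiv.Perm.sign_refl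
    have h4 : Equiv.Perm.sign (Equiv.refl D : Equiv.Perm D) = 1 := Equiv.Perm.sign_refl
    rw [h3, mul_one] at h1
    rw [h4, mul_one] at h2
    change Equiv.Perm.sign (Equiv.Perm.sumCongr α (Equiv.refl B : Equiv.Perm B)) *
      Equiv.Perm.sign (Equiv.Perm.sumCongr γ (Equiv.refl D : Equiv.Perm D)) = 1
    rw [h1, h2, hs]
  · obtain ⟨i, j, hij⟩ := exists_pair_ne D
    have hs' : Equiv.Perm.sign α * Equiv.Perm.sign γ = -1 := by
      rcases Int.units_eq_one_or (Equiv.Perm.sign α * Equiv.Perm.sign γ) with h | h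
      · exact absurd h hs
      · exact h
    conv_lhs => rw [← grho_U (E := E) (Equiv.refl B) (Equiv.swap i j)]
    rw [gmul_grho]
    refine grho_even h _ _ ?_ _
    have h1 := Equiv.Perm.sign_sumCongr α (Equiv.refl B : Equiv.Perm B)
    have h2 := Equiv.Perm.sign_sumCongr γ (Equiv.swap i j)
    have h3 : Equiv.Perm.sign (Equiv.refl B : Equiv.Perm B) = 1 := Equiv.Perm.sign_refl
    rw [h3, mul_one] at h1
    rw [Equiv.Perm.sign_swap hij] at h2
    change Equiv.Perm.sign (Equiv.Perm.sumCongr α (Equiv.refl B : Equiv.Perm B)) *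
      Equiv.Perm.sign (Equiv.Perm.sumCongr γ (Equiv.swap i j)) = 1
    rw [h1, h2, ← mul_assoc, hs']
    rfl

end Pool.Agent.Tate.T2
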