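import Pool.Agent.Lib.Tate.T2.Sp

/-! C42, block T2: `K(1)`-acyclicity from one class `y` with `2 y = b^j`. -/

set_option linter.unusedSectionVars false

open Set Topology
open scoped unitInterval Topology.Homotopy

noncomputable section

namespace Pool.Agent.Tate.T2

variable {E : CSRS}

variable {P Q R P' Q' A B C A' B' : Type} [Fintype A] [DecidableEq A] [Fintype B] [DecidableEq B]
  [Fintype C] [DecidableEq C] [Fintype A'] [DecidableEq A'] [Fintype B'] [DecidableEq B']

theorem hmul_assoc' (f : E.P P A) (g : E.P Q B) (h : E.P R C) :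
    hmul (hmul f g) h =
    rho (Equiv.sumAssoc P Q R).symm (Equiv.sumAssoc A B C).symm (hmul f (hmul g h)) := by
  rw [hmul_assoc, rho_rho, Equiv.self_trans_symm, Equiv.self_trans_symm, rho_refl]

theorem rho_inj (e : P ≃ Q) (a : A ≃ B) {f g : E.P P A} (h : rho e a f = rho e a g) : f = g := by
  have h2 := congrArg (rho e.symm a.symm) h
  rwa [rho_rho, rho_rho, Equiv.self_trans_symm, Equiv.self_trans_symm, rho_refl, rho_refl] at h2

theorem hmul_one_unit_comm [DecidableEq P] [DecidableEq Q] [Nonempty P] (g : E.P P A)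
    (y : E.P Q B) (u : E.P R C) [DecidableEq R] (h : hmul g u = 1) :
    hmul (hmul g y) u = 1 := by
  rw [hmul_assoc', hmul_comm u y]
  have h1 : hmul g (rho (Equiv.sumComm R Q) (Equiv.sumComm C B) (hmul u y)) =
      rho (Equiv.sumCongr (Equiv.refl P) (Equiv.sumComm R Q))
        (Equiv.sumCongr (Equiv.refl A) (Equiv.sumComm C B)) (hmul g (hmul u y)) := by
    conv_lhs => rw [← rho_refl g]
    rw [hmul_rho]
  rw [h1, hmul_assoc g u y, h, one_hmul', rho_one, rho_one, rho_one]

/-- Injectivity and surjectivity of the multiplication by two from a class `y` with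
`y * y = b ^ j`. -/
theorem k1_of (E : CSRS) (j n : ℕ)
    (y : E.cp.P ((Fin j × Fin 3) ⊕ Fin (n + 1)) (Fin j ⊕ Fin (n + 1)))
    (hy : y * y = cls (CSRS.prod (E.bott (Fin j)) (E.cp.unit (Fin (n + 1))))) :
    E.K1Acyclic := by
  intro N A _ _ _ _ _ f
  have hsq : ∀ a : E.cp.P N A, hmul a y * hmul a y =
      hmul a (hmul (cls (E.bott (Fin j))) (cls (E.cp.unit (Fin (n + 1))))) := fun a => by
    rw [← hmul_mul_right, hy, hmul_mk]
  constructor
  · rintro ⟨g0, hg0, n0, hn0⟩
    refine ⟨j, n + 1 + n0, ?_⟩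
    have h0 : hmul (cls g0) (cls (E.cp.unit (Fin n0))) = 1 := cls_eq.2 hn0
    have h1 : hmul (hmul (cls g0) y) (cls (E.cp.unit (Fin n0))) = 1 :=
      hmul_one_unit_comm (cls g0) y _ h0
    have hg1 : (cls g0 : E.cp.P N A) = cls f * cls f := hg0
    rw [hg1, hmul_mul_left, hsq, hmul_assoc, ] at h1
    have h2 : hmul (hmul (hmul (cls f) (cls (E.bott (Fin j)))) (cls (E.cp.unit (Fin (n + 1)))))
        (cls (E.cp.unit (Fin n0))) = 1 := by
      have h3 := congrArg (rho (Equiv.sumCongr (Equiv.sumAssoc N (Fin j × Fin 3) (Fin (n + 1))).symm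
        (Equiv.refl (Fin n0))) (Equiv.sumCongr (Equiv.sumAssoc A (Fin j) (Fin (n + 1))).symm
        (Equiv.refl (Fin n0)))) h1
      rw [rho_one, ← hmul_rho, rho_rho, Equiv.self_trans_symm, Equiv.self_trans_symm, rho_refl,
        rho_refl] at h3
      exact h3
    have h4 : hmul (hmul (cls f) (cls (E.bott (Fin j)))) (cls (E.cp.unit (Fin (n + 1 + n0)))) =
        1 := by
      have e1 : (cls (E.cp.unit (Fin (n + 1 + n0))) : E.cp.P _ _) =
          rho finSumFinEquiv finSumFinEquiv
            (hmul (cls (E.cp.unit (Fin (n + 1)))) (cls (E.cp.unit (Fin n0)))) := by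
        rw [hmul_mk, rho_mk, prod_unit, lrho_unit]
      rw [e1]
      have e2 : hmul (hmul (cls f) (cls (E.bott (Fin j)))) (rho finSumFinEquiv finSumFinEquiv
            (hmul (cls (E.cp.unit (Fin (n + 1)))) (cls (E.cp.unit (Fin n0))))) =
          rho (Equiv.sumCongr (Equiv.refl _) finSumFinEquiv)
            (Equiv.sumCongr (Equiv.refl _) finSumFinEquiv)
          (hmul (hmul (cls f) (cls (E.bott (Fin j))))
            (hmul (cls (E.cp.unit (Fin (n + 1)))) (cls (E.cp.unit (Fin n0))))) := by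
        rw [← hmul_rho, rho_refl]
      rw [e2, hmul_assoc, h2, rho_one, rho_one]
    exact cls_eq.1 h4
  · refine ⟨j, n + 1, rho (Equiv.sumAssoc N (Fin j × Fin 3) (Fin (n + 1))).symm
      (Equiv.sumAssoc A (Fin j) (Fin (n + 1))).symm (hmul (cls f) y), ?_⟩
    rw [← rho_mul, hsq, hmul_assoc, rho_rho, Equiv.self_trans_symm, Equiv.self_trans_symm,
      rho_refl, hmul_mk, hmul_mk]
    rfl

end Pool.Agent.Tate.T2
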