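import Pool.Agent.Lib.Tate.T2.St

/-! C42, block T2: the localised stable group as a direct limit. -/

set_option linter.unusedSectionVars false

open Set Topology
open scoped unitInterval Topology.Homotopy

noncomputable section

namespace Pool.Agent.Tate.T2

/-- the groups of the sequence -/
abbrev Gn (E : CSRS) (n : ℕ) : Type := Additive (G E (Fin (n + 1)) (Fin (n + 1)))

instance (n : ℕ) : Nontrivial ((Fin (n + 1) × Fin 3) ⊕ Fin (n + 1)) :=
  ⟨⟨Sum.inl (0, 0), Sum.inr 0, by simp⟩⟩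

instance (E : CSRS) (n : ℕ) : CommGroup (G E (Fin (n + 1)) (Fin (n + 1))) :=
  HomotopyGroup.commGroup

variable {E : CSRS}

/-- the bijection of the transition -/
def trE {n m : ℕ} (h : n ≤ m) : Fin (n + 1) ⊕ Fin (m - n) ≃ Fin (m + 1) :=
  finSumFinEquiv.trans (finCongr (by omega))

theorem trE_inl {n m : ℕ} (h : n ≤ m) (i : Fin (n + 1)) : (trE h (Sum.inl i) : ℕ) = i := rfl

theorem trE_inr {n m : ℕ} (h : n ≤ m) (i : Fin (m - n)) :
    (trE h (Sum.inr i) : ℕ) = n + 1 + i := rfl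

/-- the transition maps -/
def tr (E : CSRS) (n m : ℕ) (h : n ≤ m) : Gn E n →+ Gn E m :=
  AddMonoidHom.mk' (fun x => Additive.ofMul (st (trE h) (trE h) (Additive.toMul x)))
    (fun x y => by
      change Additive.ofMul (st _ _ (Additive.toMul x * Additive.toMul y)) = _
      rw [st_mul]
      rfl)

theorem tr_apply (n m : ℕ) (h : n ≤ m) (x : Gn E n) :
    tr E n m h x = Additive.ofMul (st (trE h) (trE h) (Additive.toMul x)) := rfl

instance dirSys : DirectedSystem (Gn E) fun i j h => tr E i j h where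
  map_self := by
    intro i x
    have : IsEmpty (Fin (i - i)) := by rw [Nat.sub_self]; infer_instance
    rw [tr_apply, st_self]
    · rfl
    · intro j; exact Fin.ext (trE_inl _ _)
    · intro j; exact Fin.ext (trE_inl _ _)
  map_map := by
    intro k j i hij hjk x
    rw [tr_apply, tr_apply, tr_apply]
    change Additive.ofMul (st _ _ (st _ _ _)) = _
    rw [st_st]
    have h1 := st_change (E := E) (finSumFinEquiv.trans (finCongr (by omega)) :
      Fin (j - i) ⊕ Fin (k - j) ≃ Fin (k - i)) (finSumFinEquiv.trans (finCongr (by omega)) :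
      Fin (j - i) ⊕ Fin (k - j) ≃ Fin (k - i)) (trE (hij.trans hjk)) (trE (hij.trans hjk))
      (Additive.toMul x)
    rw [h1]
    congr 2
    · ext (a | (a | a))
      · rfl
      · rfl
      · change j + 1 + (a : ℕ) = i + 1 + (j - i + (a : ℕ))
        omega
    · ext (a | (a | a))
      · rfl
      · rfl
      · change j + 1 + (a : ℕ) = i + 1 + (j - i + (a : ℕ))
        omega

/-- The localised stable group `π_0 (E ∧ KU) = colim π_{(A × 3) + C} (E ∧ CP^∞_+)(A + C)`. -/
def StR (E : CSRS) : Type := AddCommGroup.DirectLimit (Gn E) (tr E)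

instance : AddCommGroup (StR E) := inferInstanceAs (AddCommGroup (AddCommGroup.DirectLimit _ _))

/-- the class in the limit -/
def ofn (n : ℕ) : Gn E n →+ StR E := AddCommGroup.DirectLimit.of (Gn E) (tr E) n

theorem ofn_tr {n m : ℕ} (h : n ≤ m) (x : Gn E n) : ofn m (tr E n m h x) = ofn n x :=
  AddCommGroup.DirectLimit.of_f _ _

theorem ofn_ind {p : StR E → Prop} (h : ∀ n x, p (ofn n x)) (z : StR E) : p z :=
  AddCommGroup.DirectLimit.induction_on z h

theorem exists_tr_eq {n m : ℕ} {x : Gn E n} {y : Gn E m} (h : ofn n x = ofn m y) :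
    ∃ k, ∃ (hn : n ≤ k) (hm : m ≤ k), tr E n k hn x = tr E m k hm y := by
  have h1 : ofn (max n m) (tr E n _ (le_max_left n m) x - tr E m _ (le_max_right n m) y) = 0 := by
    rw [map_sub, ofn_tr, ofn_tr, h, sub_self]
  obtain ⟨k, hk, h2⟩ := AddCommGroup.DirectLimit.of.zero_exact (G := Gn E) (f := tr E)
    (max n m) _ h1
  refine ⟨k, (le_max_left n m).trans hk, (le_max_right n m).trans hk, ?_⟩
  have h3 := DirectedSystem.map_map (f := fun ⦃i j⦄ (h : i ≤ j) => (tr E i j h : Gn E i → Gn E j))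
    (le_max_left n m) hk x
  have h4 := DirectedSystem.map_map (f := fun ⦃i j⦄ (h : i ≤ j) => (tr E i j h : Gn E i → Gn E j))
    (le_max_right n m) hk y
  rw [map_sub, sub_eq_zero] at h2
  rw [← h3, ← h4]
  exact h2

variable {A B C D A' B' C' D' A'' C'' : Type} [Fintype A] [DecidableEq A] [Fintype B] [DecidableEq B]
  [Fintype C] [DecidableEq C] [Fintype D] [DecidableEq D] [Fintype A'] [DecidableEq A']
  [Fintype B'] [DecidableEq B'] [Fintype C'] [DecidableEq C'] [Fintype D'] [DecidableEq D']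
  [Fintype A''] [DecidableEq A''] [Fintype C''] [DecidableEq C'']

/-- a class seen in the `n`-th group -/
def stn {n : ℕ} (a : A ⊕ B ≃ Fin (n + 1)) (c : C ⊕ D ≃ Fin (n + 1)) (x : G E A C) : Gn E n :=
  Additive.ofMul (st a c x)

theorem ofn_stn_eq (h : SS E) {n : ℕ} (a : A ⊕ B ≃ Fin (n + 1)) (c : C ⊕ D ≃ Fin (n + 1))
    (a' : A ⊕ B' ≃ Fin (n + 1)) (c' : C ⊕ D' ≃ Fin (n + 1)) (x : G E A C) :
    ofn n (stn a' c' x) = ofn n (stn a c x) := by
  obtain ⟨α, γ, hαγ⟩ := exists_perm a c a' c' x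
  rw [← ofn_tr (Nat.le_add_right n 2), ← ofn_tr (Nat.le_add_right n 2) (stn a c x)]
  congr 1
  rw [tr_apply, tr_apply]
  change Additive.ofMul (st _ _ (st a' c' x)) = Additive.ofMul (st _ _ (st a c x))
  have : Nontrivial (Fin (n + 2 - n)) := by
    rw [Nat.add_sub_cancel_left]; infer_instance
  rw [hαγ, st_grho_perm h]

theorem ofn_stn_eq' (h : SS E) {n m : ℕ} (a : A ⊕ B ≃ Fin (n + 1)) (c : C ⊕ D ≃ Fin (n + 1))
    (a' : A ⊕ B' ≃ Fin (m + 1)) (c' : C ⊕ D' ≃ Fin (m + 1)) (x : G E A C) :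
    ofn m (stn a' c' x) = ofn n (stn a c x) := by
  rw [← ofn_tr (le_max_left n m) (stn a c x), ← ofn_tr (le_max_right n m) (stn a' c' x), tr_apply,
    tr_apply]
  change ofn _ (Additive.ofMul (st _ _ (st a' c' x))) = ofn _ (Additive.ofMul (st _ _ (st a c x)))
  rw [st_st, st_st]
  exact ofn_stn_eq h _ _ _ _ x

/-- the class in the localised stable group -/
def cl (x : G E A C) : StR E :=
  ofn (Fintype.card A + Fintype.card C) (stn (B := Fin (Fintype.card C + 1))
    (D := Fin (Fintype.card A + 1)) (Fintype.equivFinOfCardEq (by simp; omega))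
      (Fintype.equivFinOfCardEq (by simp; omega)) x)

theorem ofn_stn (h : SS E) {n : ℕ} (a : A ⊕ B ≃ Fin (n + 1)) (c : C ⊕ D ≃ Fin (n + 1))
    (x : G E A C) : ofn n (stn a c x) = cl x :=
  ofn_stn_eq' h _ _ _ _ x

theorem exists_stn (_x : G E A C) : ∃ (n : ℕ) (B D : Type) (_ : Fintype B) (_ : DecidableEq B)
    (_ : Fintype D) (_ : DecidableEq D) (_ : A ⊕ B ≃ Fin (n + 1)) (_ : C ⊕ D ≃ Fin (n + 1)),
    True :=
  ⟨Fintype.card A + Fintype.card C, Fin (Fintype.card C + 1), Fin (Fintype.card A + 1),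
    inferInstance, inferInstance, inferInstance, inferInstance,
    Fintype.equivFinOfCardEq (by simp; omega), Fintype.equivFinOfCardEq (by simp; omega), trivial⟩

theorem cl_grho (h : SS E) (α : A ≃ A') (γ : C ≃ C') (x : G E A C) : cl (grho α γ x) = cl x := by
  obtain ⟨n, B, D, _, _, _, _, a, c, -⟩ := exists_stn (grho α γ x)
  rw [← ofn_stn h a c]
  unfold stn
  rw [st_grho]
  exact ofn_stn h _ _ x

theorem cl_gmul_U (h : SS E) (x : G E A C) : cl (gmul x (U E B D)) = cl x := by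
  obtain ⟨n, B', D', _, _, _, _, a, c, -⟩ := exists_stn (gmul x (U E B D))
  rw [← ofn_stn h a c]
  unfold stn
  rw [gmul_U_eq_st, st_st]
  exact ofn_stn h _ _ x

theorem cl_mul [Nonempty C] (x y : G E A C) : cl (x * y) = cl x + cl y := by
  unfold cl stn
  rw [st_mul, ofMul_mul, map_add]

theorem ofn_eq_cl (h : SS E) (n : ℕ) (x : Gn E n) : ofn n x = cl (Additive.toMul x) := by
  rw [← ofn_stn h (trE le_rfl : Fin (n + 1) ⊕ Fin (n - n) ≃ Fin (n + 1)) (trE le_rfl),
    ← ofn_tr le_rfl x]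
  rfl

theorem cl_ind (h : SS E) {p : StR E → Prop}
    (hp : ∀ n (x : G E (Fin (n + 1)) (Fin (n + 1))), p (cl x)) (z : StR E) : p z := by
  refine ofn_ind (fun n x => ?_) z
  rw [ofn_eq_cl h]
  exact hp n _

end Pool.Agent.Tate.T2
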