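import Pool.Agent.Lib.Tate.T2.Perm

/-! C42, block T2: products of homotopy classes along a pairing of pointed spaces. -/

open Set Topology
open scoped unitInterval Topology.Homotopy

noncomputable section

namespace Pool.Agent.Tate.T2

variable {N N' M X Y Z : Type*} [TopologicalSpace X] [TopologicalSpace Y] [TopologicalSpace Z]
  {x : X} {y : Y} {z : Z}

/-- A pairing of pointed spaces (a map out of the smash product). -/
structure Pairing (x : X) (y : Y) (z : Z) where
  /-- the map -/
  toFun : X → Y → Z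
  cont : Continuous fun p : X × Y => toFun p.1 p.2
  left : ∀ b, toFun x b = z
  right : ∀ a, toFun a y = z

/-- product of loops -/
def pr (μ : Pairing x y z) (f : Ω^ M X x) (g : Ω^ N Y y) : Ω^ (M ⊕ N) Z z :=
  ⟨⟨fun t => μ.toFun (f fun i => t (Sum.inl i)) (g fun i => t (Sum.inr i)),
    μ.cont.comp ((f.1.continuous.comp (by fun_prop)).prodMk (g.1.continuous.comp (by fun_prop)))⟩,
    by
    rintro t ⟨i | i, hi⟩
    · have : f (fun i => t (Sum.inl i)) = x := GenLoop.boundary f _ ⟨i, hi⟩
      change μ.toFun (f _) (g _) = z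
      rw [this, μ.left]
    · have : g (fun i => t (Sum.inr i)) = y := GenLoop.boundary g _ ⟨i, hi⟩
      change μ.toFun (f _) (g _) = z
      rw [this, μ.right]⟩

theorem pr_apply (μ : Pairing x y z) (f : Ω^ M X x) (g : Ω^ N Y y) (t : M ⊕ N → I) :
    pr μ f g t = μ.toFun (f fun i => t (Sum.inl i)) (g fun i => t (Sum.inr i)) := rfl

theorem pr_homotopic (μ : Pairing x y z) {f f' : Ω^ M X x} {g g' : Ω^ N Y y}
    (h : GenLoop.Homotopic f f') (h' : GenLoop.Homotopic g g') :
    GenLoop.Homotopic (pr μ f g) (pr μ f' g') := by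
  obtain ⟨H, hc, h0, h1, hb⟩ := Homotopic.exists_map h
  obtain ⟨H', hc', h0', h1', hb'⟩ := Homotopic.exists_map h'
  refine homotopic_of (fun p => μ.toFun (H (p.1, fun i => p.2 (Sum.inl i)))
    (H' (p.1, fun i => p.2 (Sum.inr i)))) (μ.cont.comp ((hc.comp (by fun_prop)).prodMk
      (hc'.comp (by fun_prop)))) ?_ ?_ ?_
  · intro t
    change μ.toFun (H _) (H' _) = μ.toFun (f _) (g _)
    rw [h0, h0']
  · intro t
    change μ.toFun (H _) (H' _) = μ.toFun (f' _) (g' _)
    rw [h1, h1']
  · rintro s t ⟨i | i, hi⟩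
    · rw [hb _ _ ⟨i, hi⟩, μ.left]
    · rw [hb' _ _ ⟨i, hi⟩, μ.right]

/-- product of homotopy classes -/
def prH (μ : Pairing x y z) : HomotopyGroup M X x → HomotopyGroup N Y y →
    HomotopyGroup (M ⊕ N) Z z :=
  Quotient.map₂ (pr μ) fun _ _ h _ _ h' => pr_homotopic μ h h'

theorem prH_mk (μ : Pairing x y z) (f : Ω^ M X x) (g : Ω^ N Y y) :
    prH μ (cls f) (cls g) = cls (pr μ f g) := rfl

section
variable [DecidableEq M] [DecidableEq N]

theorem pr_transAt_left (μ : Pairing x y z) (i : M) (f f' : Ω^ M X x) (g : Ω^ N Y y) :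
    pr μ (GenLoop.transAt i f f') g = GenLoop.transAt (Sum.inl i) (pr μ f g) (pr μ f' g) := by
  ext t
  have k1 : ∀ c : I, (fun m => Function.update t (Sum.inl i) c (Sum.inl m)) =
      Function.update (fun m => t (Sum.inl m)) i c := fun c => by
    funext m
    by_cases h : m = i
    · subst h; simp
    · rw [Function.update_of_ne h, Function.update_of_ne (fun h' => h (Sum.inl_injective h'))]
  have k2 : ∀ c : I, (fun m : N => Function.update t (Sum.inl i) c (Sum.inr m)) =
      fun m => t (Sum.inr m) := fun c => by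
    funext m
    rw [Function.update_of_ne (by simp)]
  change μ.toFun (if ((t (Sum.inl i) : I) : ℝ) ≤ 1 / 2 then _ else _) _ =
    (if ((t (Sum.inl i) : I) : ℝ) ≤ 1 / 2 then _ else _)
  split_ifs
  · rw [pr_apply, k1, k2]
  · rw [pr_apply, k1, k2]

theorem pr_transAt_right (μ : Pairing x y z) (i : N) (f : Ω^ M X x) (g g' : Ω^ N Y y) :
    pr μ f (GenLoop.transAt i g g') = GenLoop.transAt (Sum.inr i) (pr μ f g) (pr μ f g') := by
  ext t
  have k1 : ∀ c : I, (fun m => Function.update t (Sum.inr i) c (Sum.inr m)) =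
      Function.update (fun m => t (Sum.inr m)) i c := fun c => by
    funext m
    by_cases h : m = i
    · subst h; simp
    · rw [Function.update_of_ne h, Function.update_of_ne (fun h' => h (Sum.inr_injective h'))]
  have k2 : ∀ c : I, (fun m : M => Function.update t (Sum.inr i) c (Sum.inl m)) =
      fun m => t (Sum.inl m) := fun c => by
    funext m
    rw [Function.update_of_ne (by simp)]
  change μ.toFun _ (if ((t (Sum.inr i) : I) : ℝ) ≤ 1 / 2 then _ else _) =
    (if ((t (Sum.inr i) : I) : ℝ) ≤ 1 / 2 then _ else _)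
  split_ifs
  · rw [pr_apply, k1, k2]
  · rw [pr_apply, k1, k2]

theorem prH_mul_left [Nonempty M] (μ : Pairing x y z) (a a' : HomotopyGroup M X x)
    (b : HomotopyGroup N Y y) : prH μ (a * a') b = prH μ a b * prH μ a' b := by
  induction a using cls_ind with | _ f
  induction a' using cls_ind with | _ f'
  induction b using cls_ind with | _ g
  have i : M := Classical.arbitrary M
  rw [cls_mul i, prH_mk, pr_transAt_left, prH_mk, prH_mk, cls_mul (Sum.inl i)]

theorem prH_mul_right [Nonempty N] (μ : Pairing x y z) (a : HomotopyGroup M X x)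
    (b b' : HomotopyGroup N Y y) : prH μ a (b * b') = prH μ a b * prH μ a b' := by
  induction a using cls_ind with | _ f
  induction b using cls_ind with | _ g
  induction b' using cls_ind with | _ g'
  have i : N := Classical.arbitrary N
  rw [cls_mul i, prH_mk, pr_transAt_right, prH_mk, prH_mk, cls_mul (Sum.inr i)]

theorem prH_one_left [Nonempty M] (μ : Pairing x y z) (b : HomotopyGroup N Y y) :
    prH μ (1 : HomotopyGroup M X x) b = 1 := by
  have h := prH_mul_left μ (1 : HomotopyGroup M X x) 1 b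
  rw [mul_one] at h
  exact left_eq_mul.1 h

theorem prH_one_right [Nonempty N] (μ : Pairing x y z) (a : HomotopyGroup M X x) :
    prH μ a (1 : HomotopyGroup N Y y) = 1 := by
  have h := prH_mul_right μ a (1 : HomotopyGroup N Y y) 1
  rw [mul_one] at h
  exact left_eq_mul.1 h

theorem prH_inv_left [Nonempty M] (μ : Pairing x y z) (a : HomotopyGroup M X x)
    (b : HomotopyGroup N Y y) : prH μ a⁻¹ b = (prH μ a b)⁻¹ := by
  rw [eq_inv_iff_mul_eq_one, ← prH_mul_left, inv_mul_cancel, prH_one_left]

theorem prH_inv_right [Nonempty N] (μ : Pairing x y z) (a : HomotopyGroup M X x)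
    (b : HomotopyGroup N Y y) : prH μ a b⁻¹ = (prH μ a b)⁻¹ := by
  rw [eq_inv_iff_mul_eq_one, ← prH_mul_right, inv_mul_cancel, prH_one_right]

end

/-- composition of a loop with a pointed map -/
def post (φ : C(X, Y)) (hφ : φ x = y) (f : Ω^ N X x) : Ω^ N Y y :=
  ⟨φ.comp f.1, fun t ht => by
    change φ (f t) = y
    rw [GenLoop.boundary f t ht, hφ]⟩

@[simp]
theorem post_apply (φ : C(X, Y)) (hφ : φ x = y) (f : Ω^ N X x) (t : N → I) :
    post φ hφ f t = φ (f t) := rfl

theorem post_homotopic (φ : C(X, Y)) (hφ : φ x = y) {f g : Ω^ N X x}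
    (h : GenLoop.Homotopic f g) : GenLoop.Homotopic (post φ hφ f) (post φ hφ g) := by
  obtain ⟨H, hc, h0, h1, hb⟩ := Homotopic.exists_map h
  refine homotopic_of (fun p => φ (H p)) (φ.continuous.comp hc) ?_ ?_ ?_
  · intro t; rw [h0]; rfl
  · intro t; rw [h1]; rfl
  · intro s t ht; rw [hb s t ht, hφ]

/-- composition with a pointed map on homotopy groups -/
def postH (φ : C(X, Y)) (hφ : φ x = y) : HomotopyGroup N X x → HomotopyGroup N Y y :=
  Quotient.map' (post φ hφ) fun _ _ h => post_homotopic φ hφ h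

theorem postH_mk (φ : C(X, Y)) (hφ : φ x = y) (f : Ω^ N X x) :
    postH φ hφ (cls f) = cls (post φ hφ f) := rfl

theorem post_transAt [DecidableEq N] (φ : C(X, Y)) (hφ : φ x = y) (i : N) (f g : Ω^ N X x) :
    post φ hφ (GenLoop.transAt i f g) = GenLoop.transAt i (post φ hφ f) (post φ hφ g) := by
  ext t
  change φ (if ((t i : I) : ℝ) ≤ 1 / 2 then _ else _) =
    (if ((t i : I) : ℝ) ≤ 1 / 2 then _ else _)
  split_ifs <;> rfl

theorem postH_mul [DecidableEq N] [Nonempty N] (φ : C(X, Y)) (hφ : φ x = y)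
    (a b : HomotopyGroup N X x) : postH φ hφ (a * b) = postH φ hφ a * postH φ hφ b := by
  induction a using cls_ind with | _ f
  induction b using cls_ind with | _ g
  have i : N := Classical.arbitrary N
  rw [cls_mul i, postH_mk, post_transAt, postH_mk, postH_mk, cls_mul i]

end Pool.Agent.Tate.T2
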