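import Pool.Agent.Lib.Tate.T2.Clamp

/-! C42, block T2: permutations of the coordinates act on homotopy groups by the sign. -/

open Set Topology
open scoped unitInterval Topology.Homotopy

noncomputable section

namespace Pool.Agent.Tate.T2

variable {N X : Type*} [TopologicalSpace X] {x : X}

/-- relabelling of the coordinates of a loop -/
def relab {M : Type*} (e : M ≃ N) (f : Ω^ M X x) : Ω^ N X x :=
  ⟨f.1.comp ⟨fun t m => t (e m), by fun_prop⟩, fun t ⟨n, hn⟩ =>
    f.2 _ ⟨e.symm n, by simpa using hn⟩⟩

@[simp]
theorem relab_apply {M : Type*} (e : M ≃ N) (f : Ω^ M X x) (t : N → I) :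
    relab e f t = f (fun m => t (e m)) := rfl

theorem relab_homotopic {M : Type*} (e : M ≃ N) {f g : Ω^ M X x} (h : GenLoop.Homotopic f g) :
    GenLoop.Homotopic (relab e f) (relab e g) := by
  obtain ⟨H, hc, h0, h1, hb⟩ := Homotopic.exists_map h
  refine homotopic_of (fun p => H (p.1, fun m => p.2 (e m))) (hc.comp (by fun_prop)) ?_ ?_ ?_
  · intro t; exact h0 _
  · intro t; exact h1 _
  · rintro s t ⟨n, hn⟩
    exact hb s _ ⟨e.symm n, by simpa using hn⟩

/-- relabelling on homotopy groups -/
def relabH {M : Type*} (e : M ≃ N) : HomotopyGroup M X x → HomotopyGroup N X x :=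
  Quotient.map' (relab e) fun _ _ h => relab_homotopic e h

theorem relabH_mk {M : Type*} (e : M ≃ N) (f : Ω^ M X x) :
    relabH e (cls f) = cls (relab e f) := rfl

theorem relabH_refl (a : HomotopyGroup N X x) : relabH (Equiv.refl N) a = a := by
  induction a using cls_ind
  rfl

theorem relabH_trans {L M : Type*} (e : L ≃ M) (e' : M ≃ N) (a : HomotopyGroup L X x) :
    relabH (e.trans e') a = relabH e' (relabH e a) := by
  induction a using cls_ind
  rfl

variable [DecidableEq N]

theorem relab_transAt {M : Type*} [DecidableEq M] (e : M ≃ N) (i : M) (f g : Ω^ M X x) :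
    relab e (GenLoop.transAt i f g) = GenLoop.transAt (e i) (relab e f) (relab e g) := by
  ext t
  have key : ∀ c : I, (fun m => Function.update t (e i) c (e m)) =
      Function.update (fun m => t (e m)) i c := fun c => by
    funext m
    by_cases h : m = i
    · subst h; simp
    · rw [Function.update_of_ne h, Function.update_of_ne (fun h' => h (e.injective h'))]
  change (if ((t (e i) : I) : ℝ) ≤ 1 / 2 then _ else _) = (if ((t (e i) : I) : ℝ) ≤ 1 / 2 then _ else _)
  split_ifs
  · rw [relab_apply, key]; rfl
  · rw [relab_apply, key]; rfl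

theorem relabH_mul {M : Type*} [DecidableEq M] [Nonempty M] [Nonempty N] (e : M ≃ N)
    (a b : HomotopyGroup M X x) : relabH e (a * b) = relabH e a * relabH e b := by
  induction a using cls_ind with | _ f
  induction b using cls_ind with | _ g
  have i : M := Classical.arbitrary M
  rw [cls_mul i, relabH_mk, relab_transAt, relabH_mk, relabH_mk, cls_mul (e i)]

/-- relabelling as a homomorphism of groups -/
def relabHom {M : Type*} [DecidableEq M] [Nonempty M] [Nonempty N] (e : M ≃ N) :
    HomotopyGroup M X x →* HomotopyGroup N X x :=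
  MonoidHom.mk' (relabH e) (relabH_mul e)

/-- A transposition of the coordinates acts as the inverse. -/
theorem relabH_swap [Nonempty N] {i j : N} (hij : i ≠ j) (a : HomotopyGroup N X x) :
    relabH (Equiv.swap i j) a = a⁻¹ := by
  induction a using cls_ind with | _ f
  rw [relabH_mk]
  have h : GenLoop.Homotopic f (GenLoop.symmAt i (relab (Equiv.swap i j) f)) := by
    refine quarter f _ hij fun t => ?_
    change f _ = f _
    congr 1
    funext m
    change (if Equiv.swap i j m = i then σ (t i) else t (Equiv.swap i j m)) = _
    rcases eq_or_ne m j with rfl | hm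
    · simp
    · rw [Function.update_of_ne hm]
      rcases eq_or_ne m i with rfl | hm'
      · simp [hij.symm]
      · rw [Function.update_of_ne hm', Equiv.swap_apply_of_ne_of_ne hm' hm, if_neg hm']
  rw [cls_eq.2 h, ← cls_inv, inv_inv]

/-- Permutations of the coordinates act by the sign. -/
theorem relabH_perm [Fintype N] [Nonempty N] (e : Equiv.Perm N) (a : HomotopyGroup N X x) :
    relabH e a = a ^ (Equiv.Perm.sign e : ℤ) := by
  induction e using Equiv.Perm.swap_induction_on generalizing a with
  | one =>
    rw [Equiv.Perm.sign_one, Units.val_one, zpow_one]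
    exact relabH_refl a
  | swap_mul e i j hij ih =>
    have : (Equiv.swap i j * e : Equiv.Perm N) = Equiv.trans e (Equiv.swap i j) := rfl
    rw [this, relabH_trans, ih, relabH_swap hij, ← this, Equiv.Perm.sign_mul,
      Equiv.Perm.sign_swap hij]
    simp

theorem relabH_even [Fintype N] [Nonempty N] (e : Equiv.Perm N) (he : Equiv.Perm.sign e = 1)
    (a : HomotopyGroup N X x) : relabH e a = a := by
  rw [relabH_perm, he]; simp

end Pool.Agent.Tate.T2
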