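import Pool.Agent.Lib.Tate.T2.Lim
import Pool.Agent.Lib.Tate.T2.K1

/-! C42, block T2: the ring structure on the localised stable group. -/

set_option linter.unusedSectionVars false

open Set Topology
open scoped unitInterval Topology.Homotopy

noncomputable section

namespace Pool.Agent.Tate.T2

variable {E : CSRS}
variable {A B C D A' B' C' D' A'' C'' : Type} [Fintype A] [DecidableEq A] [Fintype B] [DecidableEq B]
  [Fintype C] [DecidableEq C] [Fintype D] [DecidableEq D] [Fintype A'] [DecidableEq A']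
  [Fintype B'] [DecidableEq B'] [Fintype C'] [DecidableEq C'] [Fintype D'] [DecidableEq D']
  [Fintype A''] [DecidableEq A''] [Fintype C''] [DecidableEq C'']

theorem cl_gmul_comm (h : SS E) (x : G E A C) (y : G E A' C') :
    cl (gmul x y) = cl (gmul y x) := by
  rw [← gmul_comm x y, cl_grho h]

theorem cl_gmul_assoc (h : SS E) (x : G E A C) (y : G E A' C') (z : G E A'' C'') :
    cl (gmul (gmul x y) z) = cl (gmul x (gmul y z)) := by
  rw [← gmul_assoc, cl_grho h]

theorem cl_gmul_st (h : SS E) (a : A ⊕ B ≃ A') (c : C ⊕ D ≃ C') (x : G E A'' C'')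
    (y : G E A C) : cl (gmul x (st a c y)) = cl (gmul x y) := by
  unfold st
  rw [grho_gmul_right, cl_grho h, ← cl_gmul_assoc h, cl_gmul_U h]

theorem cl_st_gmul (h : SS E) (a : A ⊕ B ≃ A') (c : C ⊕ D ≃ C') (x : G E A'' C'')
    (y : G E A C) : cl (gmul (st a c y) x) = cl (gmul y x) := by
  rw [cl_gmul_comm h, cl_gmul_st h, cl_gmul_comm h]

/-- left multiplication by a class -/
def lam (h : SS E) {n : ℕ} (x : Gn E n) : StR E →+ StR E :=
  AddCommGroup.DirectLimit.lift (Gn E) (tr E) (StR E)
    (fun m => AddMonoidHom.mk' (fun y : Gn E m => cl (gmul (Additive.toMul x) (Additive.toMul y)))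
      (fun y y' => by
        change cl (gmul _ (Additive.toMul y * Additive.toMul y')) = _
        rw [gmul_mul_right, cl_mul]))
    (fun m k hmk y => by
      change cl (gmul _ (st _ _ _)) = cl (gmul _ _)
      rw [cl_gmul_st h])

theorem lam_ofn (h : SS E) {n m : ℕ} (x : Gn E n) (y : Gn E m) :
    lam h x (ofn m y) = cl (gmul (Additive.toMul x) (Additive.toMul y)) :=
  AddCommGroup.DirectLimit.lift_of _ _ _ _ _

/-- the multiplication -/
def mulHom (h : SS E) : StR E →+ StR E →+ StR E :=
  AddCommGroup.DirectLimit.lift (Gn E) (tr E) (StR E →+ StR E)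
    (fun n => AddMonoidHom.mk' (fun x : Gn E n => lam h x)
      (fun x x' => by
        refine AddMonoidHom.ext fun z => ?_
        refine ofn_ind (p := fun z => lam h (x + x') z = (lam h x + lam h x') z)
          (fun m y => ?_) z
        rw [AddMonoidHom.add_apply, lam_ofn, lam_ofn, lam_ofn]
        change cl (gmul (Additive.toMul x * Additive.toMul x') _) = _
        rw [gmul_mul_left, cl_mul]))
    (fun m k hmk x => by
      refine AddMonoidHom.ext fun z => ?_
      refine ofn_ind (p := fun z => lam h (tr E m k hmk x) z = lam h x z) (fun m y => ?_) z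
      rw [lam_ofn, lam_ofn]
      change cl (gmul (st _ _ _) _) = cl (gmul _ _)
      rw [cl_st_gmul h])

theorem mulHom_ofn (h : SS E) {n m : ℕ} (x : Gn E n) (y : Gn E m) :
    mulHom h (ofn n x) (ofn m y) = cl (gmul (Additive.toMul x) (Additive.toMul y)) := by
  have h1 : mulHom h (ofn n x) = lam h x := AddCommGroup.DirectLimit.lift_of _ _ _ _ _
  rw [h1, lam_ofn]

theorem mulHom_cl (h : SS E) (x : G E A C) (y : G E A' C') :
    mulHom h (cl x) (cl y) = cl (gmul x y) := by
  obtain ⟨n, B, D, _, _, _, _, a, c, -⟩ := exists_stn x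
  obtain ⟨m, B', D', _, _, _, _, a', c', -⟩ := exists_stn y
  rw [← ofn_stn h a c, ← ofn_stn h a' c', mulHom_ofn]
  change cl (gmul (st a c x) (st a' c' y)) = _
  rw [cl_st_gmul h, cl_gmul_st h]

theorem cl_U (h : SS E) : cl (U E A C) = cl (U E Empty Empty) := by
  have h1 : U E A C = grho (Equiv.emptySum Empty A) (Equiv.emptySum Empty C)
      (gmul (U E Empty Empty) (U E A C)) := (one_gmul _).symm
  rw [h1, cl_grho h, cl_gmul_U h]

theorem exists_cl (h : SS E) (z : StR E) :
    ∃ (n : ℕ) (x : G E (Fin (n + 1)) (Fin (n + 1))), z = cl x :=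
  cl_ind h (p := fun z => ∃ (n : ℕ) (x : G E (Fin (n + 1)) (Fin (n + 1))), z = cl x)
    (fun n x => ⟨n, x, rfl⟩) z

/-- The localised stable ring. -/
instance instRing [hF : Fact (SS E)] : CommRing (StR E) :=
  { (inferInstance : AddCommGroup (StR E)) with
    mul := fun x y => mulHom hF.out x y
    one := cl (U E Empty Empty)
    mul_assoc := by
      intro x y z
      change mulHom hF.out (mulHom hF.out x y) z = mulHom hF.out x (mulHom hF.out y z)
      obtain ⟨_, x, rfl⟩ := exists_cl hF.out x
      obtain ⟨_, y, rfl⟩ := exists_cl hF.out y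
      obtain ⟨_, z, rfl⟩ := exists_cl hF.out z
      rw [mulHom_cl, mulHom_cl, mulHom_cl, mulHom_cl, cl_gmul_assoc hF.out]
    mul_comm := by
      intro x y
      change mulHom hF.out x y = mulHom hF.out y x
      obtain ⟨_, x, rfl⟩ := exists_cl hF.out x
      obtain ⟨_, y, rfl⟩ := exists_cl hF.out y
      rw [mulHom_cl, mulHom_cl, cl_gmul_comm hF.out]
    one_mul := by
      intro x
      change mulHom hF.out (cl (U E Empty Empty)) x = x
      obtain ⟨_, x, rfl⟩ := exists_cl hF.out x
      rw [mulHom_cl, cl_gmul_comm hF.out, cl_gmul_U hF.out]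
    mul_one := by
      intro x
      change mulHom hF.out x (cl (U E Empty Empty)) = x
      obtain ⟨_, x, rfl⟩ := exists_cl hF.out x
      rw [mulHom_cl, cl_gmul_U hF.out]
    left_distrib := by
      intro x y z
      change mulHom hF.out x (y + z) = mulHom hF.out x y + mulHom hF.out x z
      rw [map_add]
    right_distrib := by
      intro x y z
      change mulHom hF.out (x + y) z = mulHom hF.out x z + mulHom hF.out y z
      rw [map_add, AddMonoidHom.add_apply]
    zero_mul := by
      intro x
      change mulHom hF.out 0 x = 0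
      rw [map_zero, AddMonoidHom.zero_apply]
    mul_zero := by
      intro x
      change mulHom hF.out x 0 = 0
      rw [map_zero] }

section

variable [hF : Fact (SS E)]

theorem cl_gmul (x : G E A C) (y : G E A' C') : cl (gmul x y) = cl x * cl y :=
  (mulHom_cl hF.out x y).symm

theorem cl_unit : cl (U E A C) = 1 := cl_U hF.out

/-- `2 y = 1` implies `K(1)`-acyclicity. -/
theorem k1 (hy : ∃ y : StR E, 2 * y = 1) : E.K1Acyclic := by
  obtain ⟨y, hy⟩ := hy
  obtain ⟨n, y', rfl⟩ : ∃ n, ∃ y' : Gn E n, y = ofn n y' :=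
    ofn_ind (p := fun y => ∃ n, ∃ y' : Gn E n, y = ofn n y') (fun n x => ⟨n, x, rfl⟩) y
  have h1 : ofn n (y' + y') = ofn 0 (Additive.ofMul (U E (Fin 1) (Fin 1)) : Gn E 0) := by
    rw [map_add, ← two_mul, hy, ofn_eq_cl hF.out]
    exact cl_unit.symm
  obtain ⟨k, hn, h0, h2⟩ := exists_tr_eq h1
  rw [map_add] at h2
  refine k1_of E (k + 1) k (Additive.toMul (tr E n k hn y')) ?_
  have h3 : Additive.toMul (tr E n k hn y' + tr E n k hn y') =
      Additive.toMul (tr E 0 k h0 (Additive.ofMul (U E (Fin 1) (Fin 1)) : Gn E 0)) :=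
    congrArg _ h2
  refine Eq.trans h3 ?_
  change st (trE h0) (trE h0) (U E (Fin (0 + 1)) (Fin (0 + 1))) = U E (Fin (k + 1)) (Fin (k + 1))
  unfold st
  rw [gmul_U, grho_U]

end

end Pool.Agent.Tate.T2
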