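import Pool.Agent.Lib.Tate.T2.Pair
import Pool.Agent.Lib.Tate.Defs

/-! C42, block T2: the bigraded family of homotopy classes of a commutative symmetric ring
spectrum: products and relabellings. -/

set_option linter.unusedSectionVars false

open Set Topology
open scoped unitInterval Topology.Homotopy

noncomputable section

namespace Pool.Agent.Tate.T2

variable {E : CSRS}

/-- the pairing of the spaces of a ring spectrum -/
def pairing (E : CSRS) (A B : Type) [Fintype A] [DecidableEq A] [Fintype B] [DecidableEq B] :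
    Pairing (E.pt A) (E.pt B) (E.pt (A ⊕ B)) where
  toFun := E.mul
  cont := E.continuous_mul
  left := E.pt_mul
  right := E.mul_pt

/-- `E.map e` as a continuous map -/
def mapC (E : CSRS) {A B : Type} [Fintype A] [DecidableEq A] [Fintype B] [DecidableEq B]
    (e : A ≃ B) : C(E.X A, E.X B) :=
  ⟨E.map e, E.continuous_map e⟩

variable {P Q R P' Q' A B C A' B' : Type} [Fintype A] [DecidableEq A] [Fintype B] [DecidableEq B]
  [Fintype C] [DecidableEq C] [Fintype A'] [DecidableEq A'] [Fintype B'] [DecidableEq B']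

theorem push_homotopic (a : A ≃ B) {f g : E.L P A} (h : GenLoop.Homotopic f g) :
    GenLoop.Homotopic (CSRS.push a f) (CSRS.push a g) :=
  post_homotopic (mapC E a) (E.map_pt a) h

/-- relabelling of loops, in coordinates and levels -/
def lrho (e : P ≃ Q) (a : A ≃ B) (f : E.L P A) : E.L Q B := relab e (CSRS.push a f)

theorem lrho_apply (e : P ≃ Q) (a : A ≃ B) (f : E.L P A) (t : Q → I) :
    lrho e a f t = E.map a (f fun i => t (e i)) := rfl

theorem prod_apply (f : E.L P A) (g : E.L Q B) (t : P ⊕ Q → I) :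
    CSRS.prod f g t = E.mul (f fun i => t (Sum.inl i)) (g fun i => t (Sum.inr i)) := rfl

theorem lrho_refl (f : E.L P A) : lrho (Equiv.refl P) (Equiv.refl A) f = f := by
  ext t; exact E.map_refl _

theorem lrho_trans (e : P ≃ Q) (a : A ≃ B) (e' : Q ≃ R) (a' : B ≃ C) (f : E.L P A) :
    lrho (e.trans e') (a.trans a') f = lrho e' a' (lrho e a f) := by
  ext t; exact E.map_trans _ _ _

theorem lrho_prod (e : P ≃ P') (a : A ≃ A') (e' : Q ≃ Q') (a' : B ≃ B') (f : E.L P A)
    (g : E.L Q B) : lrho (Equiv.sumCongr e e') (Equiv.sumCongr a a') (CSRS.prod f g) =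
      CSRS.prod (lrho e a f) (lrho e' a' g) := by
  ext t; exact E.map_mul _ _ _ _

theorem prod_assoc (f : E.L P A) (g : E.L Q B) (h : E.L R C) :
    lrho (Equiv.sumAssoc P Q R) (Equiv.sumAssoc A B C) (CSRS.prod (CSRS.prod f g) h) =
      CSRS.prod f (CSRS.prod g h) := by
  ext t; exact E.mul_assoc _ _ _

theorem prod_comm (f : E.L P A) (g : E.L Q B) :
    lrho (Equiv.sumComm P Q) (Equiv.sumComm A B) (CSRS.prod f g) = CSRS.prod g f := by
  ext t; exact E.mul_comm _ _

theorem lrho_unit (e : A ≃ B) : lrho e e (E.unit A) = E.unit B := by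
  ext t
  refine (E.map_unit e _).trans ?_
  congr 1
  funext b
  exact congrArg t (e.apply_symm_apply b)

theorem prod_unit : CSRS.prod (E.unit A) (E.unit B) = E.unit (A ⊕ B) := by
  ext t
  refine (E.unit_mul _ _).trans ?_
  congr 1
  funext b
  rcases b with b | b <;> rfl

theorem one_prod (f : E.L P A) :
    lrho (Equiv.emptySum Empty P) (Equiv.emptySum Empty A) (CSRS.prod (E.unit Empty) f) = f := by
  ext t
  have h := E.one_mul (f t)
  rw [← h]
  have h2 : (Empty.elim : Empty → I) = fun i => t (Equiv.emptySum Empty P (Sum.inl i)) :=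
    funext fun i => i.elim
  rw [h2]
  rfl

theorem prod_homotopic {f f' : E.L P A} {g g' : E.L Q B} (h : GenLoop.Homotopic f f')
    (h' : GenLoop.Homotopic g g') : GenLoop.Homotopic (CSRS.prod f g) (CSRS.prod f' g') :=
  pr_homotopic (pairing E A B) h h'

/-- product of classes -/
def hmul (f : E.P P A) (g : E.P Q B) : E.P (P ⊕ Q) (A ⊕ B) := prH (pairing E A B) f g

/-- relabelling of classes -/
def rho (e : P ≃ Q) (a : A ≃ B) (f : E.P P A) : E.P Q B :=
  relabH e (postH (mapC E a) (E.map_pt a) f)

theorem hmul_mk (f : E.L P A) (g : E.L Q B) : hmul (cls f) (cls g) = cls (CSRS.prod f g) := rfl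

theorem rho_mk (e : P ≃ Q) (a : A ≃ B) (f : E.L P A) : rho e a (cls f) = cls (lrho e a f) := rfl

theorem rho_refl (f : E.P P A) : rho (Equiv.refl P) (Equiv.refl A) f = f := by
  induction f using cls_ind with | _ f
  rw [rho_mk, lrho_refl]

theorem rho_rho (e : P ≃ Q) (a : A ≃ B) (e' : Q ≃ R) (a' : B ≃ C) (f : E.P P A) :
    rho e' a' (rho e a f) = rho (e.trans e') (a.trans a') f := by
  induction f using cls_ind with | _ f
  rw [rho_mk, rho_mk, rho_mk, lrho_trans]

theorem hmul_rho (e : P ≃ P') (a : A ≃ A') (e' : Q ≃ Q') (a' : B ≃ B') (f : E.P P A)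
    (g : E.P Q B) : hmul (rho e a f) (rho e' a' g) =
      rho (Equiv.sumCongr e e') (Equiv.sumCongr a a') (hmul f g) := by
  induction f using cls_ind with | _ f
  induction g using cls_ind with | _ g
  rw [hmul_mk, rho_mk, rho_mk, rho_mk, hmul_mk, lrho_prod]

theorem hmul_assoc (f : E.P P A) (g : E.P Q B) (h : E.P R C) :
    hmul f (hmul g h) =
    rho (Equiv.sumAssoc P Q R) (Equiv.sumAssoc A B C) (hmul (hmul f g) h) := by
  induction f using cls_ind with | _ f
  induction g using cls_ind with | _ g
  induction h using cls_ind with | _ h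
  rw [hmul_mk, hmul_mk, hmul_mk, hmul_mk, rho_mk, prod_assoc]

theorem hmul_comm (f : E.P P A) (g : E.P Q B) :
    hmul g f = rho (Equiv.sumComm P Q) (Equiv.sumComm A B) (hmul f g) := by
  induction f using cls_ind with | _ f
  induction g using cls_ind with | _ g
  rw [hmul_mk, hmul_mk, rho_mk, prod_comm]

theorem one_hmul (f : E.P P A) :
    rho (Equiv.emptySum Empty P) (Equiv.emptySum Empty A) (hmul (cls (E.unit Empty)) f) = f := by
  induction f using cls_ind with | _ f
  rw [hmul_mk, rho_mk, one_prod]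

section gp

variable [DecidableEq P] [DecidableEq Q]

theorem postH_mapC_mul [Nonempty P] (a : A ≃ B) (f g : E.P P A) :
    postH (mapC E a) (E.map_pt a) (f * g) =
      postH (mapC E a) (E.map_pt a) f * postH (mapC E a) (E.map_pt a) g :=
  postH_mul (mapC E a) (E.map_pt a) f g

theorem rho_mul [Nonempty P] [Nonempty Q] (e : P ≃ Q) (a : A ≃ B) (f g : E.P P A) :
    rho e a (f * g) = rho e a f * rho e a g := by
  unfold rho
  exact (congrArg (relabH e) (postH_mapC_mul a f g)).trans (relabH_mul e _ _)

theorem hmul_mul_left [Nonempty P] (f f' : E.P P A) (g : E.P Q B) :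
    hmul (f * f') g = hmul f g * hmul f' g := prH_mul_left _ _ _ _

theorem hmul_mul_right [Nonempty Q] (f : E.P P A) (g g' : E.P Q B) :
    hmul f (g * g') = hmul f g * hmul f g' := prH_mul_right _ _ _ _

theorem rho_one [Nonempty P] [Nonempty Q] (e : P ≃ Q) (a : A ≃ B) :
    rho e a (1 : E.P P A) = 1 := by
  have h := rho_mul e a (1 : E.P P A) 1
  rw [mul_one] at h
  exact left_eq_mul.1 h

theorem one_hmul' [Nonempty P] (g : E.P Q B) : hmul (1 : E.P P A) g = 1 := prH_one_left _ _

theorem hmul_one' [Nonempty Q] (f : E.P P A) : hmul f (1 : E.P Q B) = 1 := prH_one_right _ _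

end gp

end Pool.Agent.Tate.T2
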