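import Pool.Agent.Lib.Tate.T2.Gs

/-! C42, block T2: stabilisation maps. -/

set_option linter.unusedSectionVars false

open Set Topology
open scoped unitInterval Topology.Homotopy

noncomputable section

namespace Pool.Agent.Tate.T2

variable {E : CSRS}
variable {A B C D A' B' C' D' A'' C'' : Type} [Fintype A] [DecidableEq A] [Fintype B] [DecidableEq B]
  [Fintype C] [DecidableEq C] [Fintype D] [DecidableEq D] [Fintype A'] [DecidableEq A']
  [Fintype B'] [DecidableEq B'] [Fintype C'] [DecidableEq C'] [Fintype D'] [DecidableEq D']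
  [Fintype A''] [DecidableEq A''] [Fintype C''] [DecidableEq C'']

/-- multiplication with the unit class of `(B, D)`, followed by relabelling -/
def st (a : A ⊕ B ≃ A') (c : C ⊕ D ≃ C') (x : G E A C) : G E A' C' :=
  grho a c (gmul x (U E B D))

theorem grho_congr {α α' : A ≃ A'} {γ γ' : C ≃ C'} (h : α = α') (h' : γ = γ') (x : G E A C) :
    grho α γ x = grho α' γ' x := by rw [h, h']

theorem grho_gmul_left (α : A ≃ A') (γ : C ≃ C') (x : G E A C) (y : G E B D) :
    gmul (grho α γ x) y = grho (Equiv.sumCongr α (Equiv.refl B)) (Equiv.sumCongr γ (Equiv.refl D))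
      (gmul x y) := by
  conv_lhs => rw [← grho_refl y]
  rw [gmul_grho]

theorem grho_gmul_right (α : B ≃ B') (γ : D ≃ D') (x : G E A C) (y : G E B D) :
    gmul x (grho α γ y) = grho (Equiv.sumCongr (Equiv.refl A) α) (Equiv.sumCongr (Equiv.refl C) γ)
      (gmul x y) := by
  conv_lhs => rw [← grho_refl x]
  rw [gmul_grho]

theorem gmul_assoc_symm (x : G E A C) (y : G E A' C') (z : G E A'' C'') :
    gmul (gmul x y) z = grho (Equiv.sumAssoc A A' A'').symm (Equiv.sumAssoc C C' C'').symm
      (gmul x (gmul y z)) := by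
  rw [← gmul_assoc, grho_grho, Equiv.self_trans_symm, Equiv.self_trans_symm, grho_refl]

theorem st_st (a : A ⊕ B ≃ A') (c : C ⊕ D ≃ C') (a' : A' ⊕ B' ≃ A'') (c' : C' ⊕ D' ≃ C'')
    (x : G E A C) : st a' c' (st a c x) =
      st ((Equiv.sumAssoc A B B').symm.trans ((Equiv.sumCongr a (Equiv.refl B')).trans a'))
        ((Equiv.sumAssoc C D D').symm.trans ((Equiv.sumCongr c (Equiv.refl D')).trans c')) x := by
  unfold st
  rw [grho_gmul_left, gmul_assoc_symm, gmul_U, grho_grho, grho_grho]

theorem st_grho (α : A ≃ A'') (γ : C ≃ C'') (a : A'' ⊕ B ≃ A') (c : C'' ⊕ D ≃ C') (x : G E A C) :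
    st a c (grho α γ x) = st ((Equiv.sumCongr α (Equiv.refl B)).trans a)
      ((Equiv.sumCongr γ (Equiv.refl D)).trans c) x := by
  unfold st
  rw [grho_gmul_left, grho_grho]

theorem grho_st (α : A' ≃ A'') (γ : C' ≃ C'') (a : A ⊕ B ≃ A') (c : C ⊕ D ≃ C') (x : G E A C) :
    grho α γ (st a c x) = st (a.trans α) (c.trans γ) x := by
  unfold st
  rw [grho_grho]

theorem st_change (β : B ≃ B') (δ : D ≃ D') (a : A ⊕ B' ≃ A') (c : C ⊕ D' ≃ C') (x : G E A C) :
    st a c x = st ((Equiv.sumCongr (Equiv.refl A) β).trans a)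
      ((Equiv.sumCongr (Equiv.refl C) δ).trans c) x := by
  unfold st
  rw [← grho_U β δ, grho_gmul_right, grho_grho]

theorem gmul_U_eq_st (x : G E A C) : gmul x (U E B D) = st (Equiv.refl _) (Equiv.refl _) x := by
  unfold st
  rw [grho_refl]

theorem gmul_one' (x : G E A C) : grho (Equiv.sumEmpty A Empty) (Equiv.sumEmpty C Empty)
    (gmul x (U E Empty Empty)) = x := by
  have h := one_gmul x
  rw [← gmul_comm x, grho_grho] at h
  conv_rhs => rw [← h]
  refine grho_congr ?_ ?_ _
  · ext (i | i)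
    · rfl
    · exact i.elim
  · ext (i | i)
    · rfl
    · exact i.elim

theorem st_self [IsEmpty B] [IsEmpty D] (a : A ⊕ B ≃ A) (c : C ⊕ D ≃ C)
    (ha : ∀ i, a (Sum.inl i) = i) (hc : ∀ i, c (Sum.inl i) = i) (x : G E A C) :
    st a c x = x := by
  have h1 := st_change (E := E) (Equiv.equivOfIsEmpty Empty B) (Equiv.equivOfIsEmpty Empty D) a c x
  rw [h1]
  conv_rhs => rw [← gmul_one' x]
  unfold st
  refine grho_congr ?_ ?_ _
  · ext (i | i)
    · exact ha i
    · exact i.elim
  · ext (i | i)
    · exact hc i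
    · exact i.elim

theorem st_mul [Nonempty C] [Nonempty C'] (a : A ⊕ B ≃ A') (c : C ⊕ D ≃ C') (x y : G E A C) :
    st a c (x * y) = st a c x * st a c y := by
  unfold st
  rw [gmul_mul_left, grho_mul]

/-- Two stabilisations of the same class to the same group differ by a diagonal permutation. -/
theorem exists_perm (a : A ⊕ B ≃ A') (c : C ⊕ D ≃ C') (a' : A ⊕ B' ≃ A') (c' : C ⊕ D' ≃ C')
    (x : G E A C) : ∃ (α : Equiv.Perm A') (γ : Equiv.Perm C'), st a' c' x = grho α γ (st a c x) := by
  have hB : Fintype.card B = Fintype.card B' := by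
    have h1 := Fintype.card_congr a
    have h2 := Fintype.card_congr a'
    rw [Fintype.card_sum] at h1 h2
    omega
  have hD : Fintype.card D = Fintype.card D' := by
    have h1 := Fintype.card_congr c
    have h2 := Fintype.card_congr c'
    rw [Fintype.card_sum] at h1 h2
    omega
  refine ⟨a.symm.trans ((Equiv.sumCongr (Equiv.refl A) (Fintype.equivOfCardEq hB)).trans a'),
    c.symm.trans ((Equiv.sumCongr (Equiv.refl C) (Fintype.equivOfCardEq hD)).trans c'), ?_⟩
  rw [grho_st, st_change (Fintype.equivOfCardEq hB) (Fintype.equivOfCardEq hD) a' c' x]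
  congr 1
  · ext i; simp
  · ext i; simp

/-- After a stabilisation with two suspension coordinates, permutations do not matter. -/
theorem st_grho_perm (h : SS E) [Nontrivial D] (α : Equiv.Perm A) (γ : Equiv.Perm C)
    (a : A ⊕ B ≃ A') (c : C ⊕ D ≃ C') (x : G E A C) : st a c (grho α γ x) = st a c x := by
  unfold st
  rw [grho_gmul_U h]

end Pool.Agent.Tate.T2
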